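import Pool.Agent.Helper13.KC.Core
import Pool.Agent.Helper41.KV.PackD

set_option autoImplicit false
set_option maxRecDepth 100000

/-!
The swaps on vectors of 32 masks, packed in fields of 35 bits.
-/

namespace KV

open KC

/-- Test of all positions from `k * 35` on, `n` fields. -/
def okV (f : Nat → Nat → Bool) (i : Nat) : Bool :=
  (List.range 32).all fun j => (List.range 35).all fun t =>
    f (Nat.add (Nat.mul 35 j) t) (Nat.add (Nat.mul 35 j) (ba i t))

theorem kv0 : okV (ok1 cF0 cA0 1) 0 = true := by decide +kernel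
theorem kv1 : okV (ok1 cF1 cA1 1) 1 = true := by decide +kernel
theorem kv2 : okV (ok2 cF2 cA2 1 cB2 2) 2 = true := by decide +kernel
theorem kv3 : okV (ok2 cF3 cA3 1 cB3 3) 3 = true := by decide +kernel
theorem kv4 : okV (ok2 cF4 cA4 4 cB4 6) 4 = true := by decide +kernel
theorem kv5 : okV (ok1 cF5 cA5 10) 5 = true := by decide +kernel

theorem tauV_bit (i m j t : Nat) (hi : i < 6) (hj : j < 32) (ht : t < 35) :
    (tauV i m).testBit (35 * j + t) = m.testBit (35 * j + ba i t) := by
  have key : ∀ {f : Nat → Nat → Bool}, okV f i = true → f (35 * j + t) (35 * j + ba i t) = true := by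
    intro f hf
    simp only [okV, List.all_eq_true, List.mem_range] at hf
    exact hf j hj t ht
  have : i = 0 ∨ i = 1 ∨ i = 2 ∨ i = 3 ∨ i = 4 ∨ i = 5 := by omega
  rcases this with rfl | rfl | rfl | rfl | rfl | rfl
  · exact sel1 _ _ _ _ _ _ (key kv0)
  · exact sel1 _ _ _ _ _ _ (key kv1)
  · exact sel2 _ _ _ _ _ _ _ _ (key kv2)
  · exact sel2 _ _ _ _ _ _ _ _ (key kv3)
  · exact sel2 _ _ _ _ _ _ _ _ (key kv4)
  · exact sel1 _ _ _ _ _ _ (key kv5)

/-- Field `j`. -/
def fld (X j : Nat) : Nat := Nat.land (Nat.shiftRight X (Nat.mul 35 j)) 34359738367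

theorem fld_bit (X j t : Nat) : (fld X j).testBit t = (decide (t < 35) && X.testBit (35 * j + t)) := by
  unfold fld
  rw [land_bit]
  change (Nat.testBit (X >>> (35 * j)) t && Nat.testBit (2 ^ 35 - 1) t) = _
  rw [Nat.testBit_shiftRight, Nat.testBit_two_pow_sub_one, Bool.and_comm]

theorem fld_lt (X j : Nat) : fld X j < 2 ^ 35 := by
  unfold fld
  exact lt_of_le_of_lt Nat.and_le_right (by norm_num)

theorem fld_tauV (i X j : Nat) (hi : i < 6) (hj : j < 32) :
    fld (tauV i X) j = tau i (fld X j) := by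
  refine Nat.eq_of_testBit_eq fun t => ?_
  by_cases ht : t < 35
  · have hb : ∀ i < 6, ∀ t < 35, ba i t < 35 := by decide +kernel
    rw [fld_bit, tauV_bit i X j t hi hj ht, tau_bit i _ t hi ht, fld_bit,
      decide_eq_true ht, decide_eq_true (hb i hi t ht)]
  · rw [Nat.testBit_eq_false_of_lt (lt_of_lt_of_le (fld_lt _ _)
      (Nat.pow_le_pow_right (by norm_num) (by omega))),
      Nat.testBit_eq_false_of_lt (lt_of_lt_of_le (tau_lt _ _)
      (Nat.pow_le_pow_right (by norm_num) (by omega)))]

/-- Apply a word to all fields. -/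
def awV : List Nat → Nat → Nat
  | [], X => X
  | i :: l, X => awV l (tauV i X)

theorem fld_awV : ∀ (l : List Nat) (X j : Nat), wok l = true → j < 32 →
    fld (awV l X) j = awl l (fld X j)
  | [], _, _, _, _ => rfl
  | i :: l, X, j, h, hj => by
    obtain ⟨h1, h2⟩ := wok_cons.1 h
    rw [awV, fld_awV l _ j h2 hj, fld_tauV i X j h1 hj]
    rfl

theorem fld_pack : ∀ (l : List Nat) (j : Nat), (∀ m ∈ l, m < 2 ^ 35) → j < l.length →
    fld (pack l) j = l.getD j 0
  | [], j, _, h => absurd h (by simp)
  | m :: l, j, hl, h => by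
    have hm := hl m List.mem_cons_self
    have e : pack (m :: l) = 2 ^ 35 * pack l + m := by
      change m + (pack l) <<< 35 = _
      rw [Nat.shiftLeft_eq, Nat.add_comm, Nat.mul_comm]
    refine Nat.eq_of_testBit_eq fun t => ?_
    rw [fld_bit, e, Nat.testBit_two_pow_mul_add _ hm]
    rcases j with _ | j
    · by_cases ht : t < 35
      · simp [ht]
      · simp only [ht, decide_false, Bool.false_and, List.getD_cons_zero]
        exact (Nat.testBit_eq_false_of_lt (lt_of_lt_of_le hm
          (Nat.pow_le_pow_right (by norm_num) (by omega)))).symm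
    · have ih := fld_pack l j (fun m' hm' => hl m' (List.mem_cons_of_mem _ hm'))
        (by simpa using h)
      have e2 : 35 * (j + 1) + t - 35 = 35 * j + t := by omega
      rw [List.getD_cons_succ, ← ih, fld_bit, if_neg (by omega), e2]

end KV
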