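import Pool.Agent.Helper41.KV.RT
import Pool.Agent.Helper41.KV.Pack

set_option autoImplicit false

/-!
Closed form of the fast evaluation.
-/

namespace KV

open KC

theorem RT.get_eq {α : Type} : ∀ (t : RT) (i : Nat) (k : Nat → Nat → Nat → Nat → α),
    t.get i k = k (t.get i fun b _ _ _ => b) (t.get i fun _ f _ _ => f)
      (t.get i fun _ _ w _ => w) (t.get i fun _ _ _ w => w)
  | .L _ _ _ _, _, _ => rfl
  | .N n a b, i, k => by
    have e : ∀ {β : Type} (k : Nat → Nat → Nat → Nat → β),
        (RT.N n a b).get i k = bif Nat.ble n i then b.get i k else a.get i k := by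
      intro β k
      change (Bool.rec (motive := fun _ => (Nat → Nat → Nat → Nat → β) → β)
        (a.get i) (b.get i) (Nat.ble n i)) k = _
      cases Nat.ble n i <;> rfl
    rw [e, e, e, e, e]
    cases Nat.ble n i
    · exact RT.get_eq a i k
    · exact RT.get_eq b i k

/-- First row. -/
noncomputable def RT.b (R : RT) (r : Nat) : Nat := R.get r fun b _ _ _ => b
/-- Row of flag indices. -/
noncomputable def RT.fr (R : RT) (r : Nat) : Nat := R.get r fun _ f _ _ => f
/-- Flags of the root triples. -/
noncomputable def RT.w3 (R : RT) (r : Nat) : Nat := R.get r fun _ _ w _ => w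
/-- Flags of the root pairs. -/
noncomputable def RT.w1 (R : RT) (r : Nat) : Nat := R.get r fun _ _ _ w => w

/-- The root mask. -/
def r10 (x : Nat) : Nat := Nat.land x 1023

/-- Value of one arrangement. -/
noncomputable def pvx (R : RT) (pv : Nat → Nat → Nat → Nat → Nat) (x : Nat) : Nat :=
  pv (R.b (r10 x)) (R.fr (r10 x)) (r10 x) x

/-- Field at position `s`. -/
def fs (s X : Nat) : Nat := Nat.land (Nat.shiftRight X s) 34359738367

theorem walk_eq (R : RT) (pv : Nat → Nat → Nat → Nat → Nat) (s : Nat) :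
    ∀ (l : List Nat) (acc v3 v1 : Nat) (k : Nat → Nat → Nat → Nat),
    walk R pv s l acc v3 v1 k =
      k (l.foldl (fun a X => a + pvx R pv (fs s X)) acc)
        (l.foldl (fun a X => a <<< 160 + R.w3 (r10 (fs s X))) v3)
        (l.foldl (fun a X => a <<< 60 + R.w1 (r10 (fs s X))) v1)
  | [], _, _, _, _ => rfl
  | X :: l, acc, v3, v1, k => by
    change (fc (Nat.land (Nat.shiftRight X s) 34359738367) fun x =>
      fc (Nat.land x 1023) fun r =>
      R.get r fun b fr w3 w1 =>
      walk R pv s l (Nat.add acc (pv b fr r x))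
        (Nat.add (Nat.shiftLeft v3 160) w3) (Nat.add (Nat.shiftLeft v1 60) w1) k) = _
    rw [fc_eq, fc_eq, RT.get_eq, walk_eq R pv s l]
    rfl

/-- The pairs of a list. -/
def PL.toList : PL → List (Nat × Nat)
  | .E => []
  | .C s t l => (s, t) :: l.toList

/-- Field. -/
def fm (V M s : Nat) : Nat := Nat.land (Nat.shiftRight V s) M

theorem sumP_eq (Q : BT) (M : Nat) : ∀ (l : PL) (V acc : Nat),
    sumP Q M l V acc = acc + (l.toList.map fun p => e96 (Q.get (fm V M p.1)) (fm V M p.2)).sum
  | .E, _, _ => rfl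
  | .C s t l, V, acc => by
    change sumP Q M l V (fc (Nat.land (Nat.shiftRight V s) M) fun i =>
      Nat.add acc (e96 (Q.get i) (Nat.land (Nat.shiftRight V t) M))) = _
    rw [fc_eq, sumP_eq Q M l]
    simp only [PL.toList, List.map_cons, List.sum_cons]
    rw [← Nat.add_assoc]
    rfl

/-- Vector of fields. -/
def vec (B : Nat) (w : Nat → Nat) (l : List Nat) : Nat := l.foldr (fun x a => a <<< B + w x) 0

theorem val_eq (R : RT) (pv : Nat → Nat → Nat → Nat → Nat) (Q3 Q1 : BT) (l3 l1 : PL)
    (l : List Nat) (s : Nat) :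
    val R pv Q3 Q1 l3 l1 l.reverse s =
      ((l.map (fs s)).map (pvx R pv)).sum +
      (l3.toList.map fun p =>
        e96 (Q3.get (fm (vec 160 (fun x => R.w3 (r10 x)) (l.map (fs s))) 255 p.1))
          (fm (vec 160 (fun x => R.w3 (r10 x)) (l.map (fs s))) 255 p.2)).sum +
      (l1.toList.map fun p =>
        e96 (Q1.get (fm (vec 60 (fun x => R.w1 (r10 x)) (l.map (fs s))) 7 p.1))
          (fm (vec 60 (fun x => R.w1 (r10 x)) (l.map (fs s))) 7 p.2)).sum := by
  unfold val
  rw [walk_eq, fc_eq, fc_eq, sumP_eq, sumP_eq, List.foldl_reverse, List.foldl_reverse,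
    List.foldl_reverse]
  have e1 : List.foldr (fun x y => y + pvx R pv (fs s x)) 0 l =
      ((l.map (fs s)).map (pvx R pv)).sum := by
    induction l with
    | nil => rfl
    | cons a l ih =>
      simp only [List.foldr_cons, List.map_cons, List.sum_cons, ih]
      exact Nat.add_comm _ _
  have e2 : ∀ (B : Nat) (w : Nat → Nat), List.foldr (fun x y => y <<< B + w (r10 (fs s x))) 0 l =
      vec B (fun x => w (r10 x)) (l.map (fs s)) := by
    intro B w
    unfold vec
    rw [List.foldr_map]
  rw [e1, e2, e2]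

theorem vec_bit (B : Nat) (w : Nat → Nat) : ∀ (l : List Nat) (u t : Nat),
    (∀ x ∈ l, w x < 2 ^ B) → t < B → u < l.length →
    (vec B w l).testBit (B * u + t) = (w (l.getD u 0)).testBit t
  | [], _, _, _, _, h => absurd h (by simp)
  | x :: l, u, t, hw, ht, hu => by
    have hx := hw x List.mem_cons_self
    have e : vec B w (x :: l) = 2 ^ B * vec B w l + w x := by
      change (vec B w l) <<< B + w x = _
      rw [Nat.shiftLeft_eq, Nat.mul_comm]
    rw [e, Nat.testBit_two_pow_mul_add _ hx]
    rcases u with _ | u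
    · simp [ht]
    · have e2 : B * (u + 1) + t - B = B * u + t := by
        rw [Nat.mul_succ]; omega
      have h3 : ¬ (B * (u + 1) + t < B) := by
        rw [Nat.mul_succ]; omega
      rw [if_neg h3, e2, List.getD_cons_succ]
      exact vec_bit B w l u t (fun y hy => hw y (List.mem_cons_of_mem _ hy)) ht
        (by simpa using hu)

theorem fm_bit (V a s t : Nat) : (fm V (2 ^ a - 1) s).testBit t =
    (decide (t < a) && V.testBit (s + t)) := by
  unfold fm
  rw [land_bit]
  change (Nat.testBit (V >>> s) t && Nat.testBit (2 ^ a - 1) t) = _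
  rw [Nat.testBit_shiftRight, Nat.testBit_two_pow_sub_one, Bool.and_comm]

theorem fm_vec (B a : Nat) (w : Nat → Nat) (l : List Nat) (u k : Nat)
    (hw : ∀ x ∈ l, w x < 2 ^ B) (hk : k + a ≤ B) (hu : u < l.length) :
    fm (vec B w l) (2 ^ a - 1) (B * u + k) = fm (w (l.getD u 0)) (2 ^ a - 1) k := by
  refine Nat.eq_of_testBit_eq fun t => ?_
  rw [fm_bit, fm_bit]
  by_cases ht : t < a
  · rw [Nat.add_assoc, vec_bit B w l u (k + t) hw (by omega) hu]
  · simp [ht]

end KV
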