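import Pool.Agent.Helper13.KC.BT
import Pool.Agent.Helper18.KT.FZ

set_option autoImplicit false

/-!
The functional of the stability step inside the five-root pass.
-/

namespace KV

open KC

/-- Placement (4 bits for each root mask). -/
def kfT : Nat := 6477927150330064458290815830099581124040870687616156500963489877722539231720950904444059529405907054106691832767938570299791063513650208724078257314970893779535687477801325939552967605104341523905938764598209620914620123656950455346991833967385473693574540695062092687262338923608482672108608767082013126471566794238703805187062344264078101364176257813426794519560719188860513758811418302990109833009759560605082702794912888786487154664630212451786760394711238115885404350640020732727447998955355130907555218838147735975507533252631432564631466386619036057219675316410732280482700952780540162696477874714838397098986645106491480505408273006066587107133090688881350089246074227610981873099983012897326486355355602174303542990935171005356419477182818834028325914039171784920394674873325005440873139216074959115894508319101029369644446043505334944411156310246452166864886140118531199674295507656562514896562125405509793370109937883870644977024859213863555377007166278860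

/-- Apply a word. -/
noncomputable def aw1 (l : List Nat) : Nat → Nat :=
  List.rec (motive := fun _ => Nat → Nat) (fun x => x) (fun i _ ih x => fc (tau i x) ih) l

/-- Word number `k` of a list. -/
noncomputable def nthW (l : List (List Nat)) : Nat → List Nat :=
  List.rec (motive := fun _ => Nat → List Nat) (fun _ => [])
    (fun W _ ih k => Bool.rec (motive := fun _ => List Nat) (ih (Nat.sub k 1)) W (Nat.beq k 0)) l

/-- Functional at a mask, given the first row of the type. -/
noncomputable def qF (W : List (List Nat)) (A B C X OFF b r x : Nat) : Nat :=
  Bool.rec (motive := fun _ => Nat) OFF
    (fc (Nat.land (Nat.shiftRight kfT (Nat.mul 4 r)) 15) fun k =>
      fc (aw1 (nthW W k) x) fun y => fK A B C X OFF y)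
    (Nat.beq b 1711)

end KV
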