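import Pool.Agent.Helper41.KV.Spec3
import Pool.Agent.Helper41.KD.D

set_option autoImplicit false

/-!
The degree equations inside the five-root pass.
-/

namespace KV

open KC

theorem vV_bit : ∀ k < 5, ∀ W ∈ [wV.getD k []], w4 W = true ∧
    ixs (vw W (f7 (KC.tri 30).1)).1 (vw W (f7 (KC.tri 30).2.1)).1
      (vw W (f7 (KC.tri 30).2.2)).1 = 30 + k := by decide +kernel

theorem bitV {x : Nat} (hx : x < 2 ^ 35) {k : Nat} (hk : k < 5) :
    (awl (wV.getD k []) x).testBit 30 = x.testBit (30 + k) := by
  obtain ⟨h1, h2⟩ := vV_bit k hk _ (List.mem_singleton.2 rfl)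
  rw [awl_bit (w4_wok h1) hx (by norm_num), bt, h2]

/-- Sum of the degree terms over the five roots. -/
noncomputable def GD5 (T : TabD) (x : Nat) : ℤ :=
  ((List.range 5).map fun k => T.GD (awl (wV.getD k []) x)).sum

/-- The multiplier for root number `k`. -/
noncomputable def kv (T : TabD) (r k : Nat) : Nat := T.ke (rt (awl (wV.getD k []) r))

/-- Weighted sum over the bits of a code. -/
def wb (code : Nat) (l : List Nat) (s : Nat) : Nat :=
  match l with
  | [] => 0
  | a :: l => Nat.add (Nat.mul (Nat.land (Nat.shiftRight code s) 1) a) (wb code l (Nat.succ s))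

/-- Check of the table of the degree equations at a labelled root mask. -/
noncomputable def ckDr (T : TabD) (D : BT) (C0 : Nat) (r : Nat) : Bool :=
  fc (kv T r 0) fun k0 => fc (kv T r 1) fun k1 => fc (kv T r 2) fun k2 =>
  fc (kv T r 3) fun k3 => fc (kv T r 4) fun k4 => fc (D.get r) fun X =>
  (List.range 32).all fun c =>
    Nat.beq (Nat.add (e96 X c) (Nat.add (Nat.mul T.B (Nat.add k0 (Nat.add k1 (Nat.add k2
      (Nat.add k3 k4))))) (Nat.mul (Nat.mul T.A T.OFF) (wb c [1, 1, 1, 1, 1] 0))))
      (Nat.add (Nat.add C0 (Nat.mul 5 (Nat.mul T.B T.OFF)))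
        (Nat.mul T.A (wb c [k0, k1, k2, k3, k4] 0)))

theorem ckDr_spec {T : TabD} {D : BT} {C0 r : Nat} (h : ckDr T D C0 r = true) (c : Nat)
    (hc : c < 32) : ((e96 (D.get r) c : Nat) : ℤ) = (C0 : ℤ) +
      ((List.range 5).map fun k => T.kd (rt (awl (wV.getD k []) r)) *
        ((T.A : ℤ) * ((c.testBit k).toNat : ℤ) - T.B)).sum := by
  unfold ckDr at h
  rw [fc_eq, fc_eq, fc_eq, fc_eq, fc_eq, fc_eq] at h
  have h1 := Nat.eq_of_beq_eq_true (List.all_eq_true.1 h c (List.mem_range.2 hc))
  have hb : ∀ s, Nat.land (Nat.shiftRight c s) 1 = (c.testBit s).toNat := fun s => KE.one_bit c s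
  simp only [wb, hb, Nat.add_eq, Nat.mul_eq] at h1
  have h2 : ((e96 (D.get r) c : Nat) : ℤ) = _ := rfl
  zify at h1
  simp only [List.range, List.range.loop, List.map_cons, List.map_nil, List.sum_cons,
    List.sum_nil, TabD.kd]
  simp only [kv] at h1
  linarith

theorem qD_spec {T : TabD} {D : BT} {C0 : Nat} {x : Nat} (hx : Adm x)
    (hR : ckDr T D C0 (rt x) = true) : ((qD D (rt x) x : Nat) : ℤ) = GD5 T x + C0 := by
  have hc : Nat.shiftRight x 30 < 32 := by
    rw [shift_div]
    have := hx.lt
    omega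
  have h1 := ckDr_spec hR _ hc
  unfold qD
  rw [h1, GD5, add_comm]
  congr 2
  refine List.map_congr_left fun k hk => ?_
  have hk5 : k < 5 := List.mem_range.1 hk
  obtain ⟨hw, -⟩ := vV_bit k hk5 _ (List.mem_singleton.2 rfl)
  have hb : (Nat.shiftRight x 30).testBit k = x.testBit (30 + k) := Nat.testBit_shiftRight ..
  rw [TabD.GD, bitV hx.lt hk5, rt_awl' hw x, hb]

theorem sumD {T : TabD} (h : T.Good) {f : Nat → Nat} {off : ℤ} {m : Nat} (hm : Adm m)
    (hf : ∀ x, Adm x → ((f x : Nat) : ℤ) = GD5 T x + off) :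
    (((((List.range 21).map (fun u => awl (fU u) m)).map f).sum : Nat) : ℤ) =
      fam treeD.tr T.GD m + 21 * off := by
  rw [famD_eq (TabD.GD_inv h) hm, List.map_map]
  have key : ∀ n : Nat, ((((List.range n).map (f ∘ fun u => awl (fU u) m)).sum : Nat) : ℤ) =
      ((List.range (5 * n)).map (fun y => T.GD (awl (fD y) m))).sum + n * off := by
    intro n
    induction n with
    | zero => simp
    | succ n ih =>
      have e : 5 * (n + 1) = 5 * n + 1 + 1 + 1 + 1 + 1 := by ring
      rw [List.range_succ, List.map_append, List.sum_append, Nat.cast_add, ih, e,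
        List.range_succ, List.range_succ, List.range_succ, List.range_succ, List.range_succ]
      simp only [List.map_append, List.sum_append, List.map_cons, List.map_nil, List.sum_cons,
        List.sum_nil, Function.comp_apply, add_zero]
      rw [hf _ (adm_awl _ (fU_ok n) hm), GD5]
      have d0 : fD (5 * n) = fU n ++ wV.getD 0 [] := by
        rw [fD, show 5 * n / 5 = n by omega, show 5 * n % 5 = 0 by omega]
      have d1 : fD (5 * n + 1) = fU n ++ wV.getD 1 [] := by
        rw [fD, show (5 * n + 1) / 5 = n by omega, show (5 * n + 1) % 5 = 1 by omega]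
      have d2 : fD (5 * n + 1 + 1) = fU n ++ wV.getD 2 [] := by
        rw [fD, show (5 * n + 1 + 1) / 5 = n by omega, show (5 * n + 1 + 1) % 5 = 2 by omega]
      have d3 : fD (5 * n + 1 + 1 + 1) = fU n ++ wV.getD 3 [] := by
        rw [fD, show (5 * n + 1 + 1 + 1) / 5 = n by omega,
          show (5 * n + 1 + 1 + 1) % 5 = 3 by omega]
      have d4 : fD (5 * n + 1 + 1 + 1 + 1) = fU n ++ wV.getD 4 [] := by
        rw [fD, show (5 * n + 1 + 1 + 1 + 1) / 5 = n by omega,
          show (5 * n + 1 + 1 + 1 + 1) % 5 = 4 by omega]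
      rw [d0, d1, d2, d3, d4, awl_append, awl_append, awl_append, awl_append, awl_append]
      simp only [List.range, List.range.loop, List.map_cons, List.map_nil, List.sum_cons,
        List.sum_nil]
      push_cast
      ring
  have h21 := key 21
  rw [h21]
  norm_num

end KV
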