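import Pool.Agent.Helper41.KV.WF
import Pool.Agent.Helper41.KV.EvF
import Pool.Agent.Helper41.KV.SpecD
import Pool.Agent.Helper41.KV.Ev

set_option autoImplicit false

/-!
The functional inside the five-root pass: correctness.
-/

namespace KV

open KC

theorem aw1_eq : ∀ (l : List Nat) (x : Nat), aw1 l x = awl l x
  | [], _ => rfl
  | i :: l, x => by
    change fc (tau i x) (aw1 l) = _
    rw [fc_eq, aw1_eq l]
    rfl

theorem nthW_eq : ∀ (l : List (List Nat)) (k : Nat), nthW l k = l.getD k []
  | [], _ => rfl
  | W :: l, 0 => rfl
  | W :: l, k + 1 => by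
    change Bool.rec (motive := fun _ => List Nat) (nthW l (Nat.sub (k + 1) 1)) W
      (Nat.beq (k + 1) 0) = _
    rw [show Nat.beq (k + 1) 0 = false from rfl, show Nat.sub (k + 1) 1 = k from rfl,
      List.getD_cons_succ]
    exact nthW_eq l k

/-- Sum of the functional over the 12 placements on the five roots. -/
def GF5 (A B C D : ℤ) (x : Nat) : ℤ :=
  ((List.range 12).map fun k => fz A B C D (awl (wF.getD k []) x)).sum

/-- The selected placement. -/
noncomputable def selF (b r : Nat) : Nat :=
  Bool.rec (motive := fun _ => Nat) 12 (Nat.land (Nat.shiftRight kfT (Nat.mul 4 r)) 15)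
    (Nat.beq b 1711)

/-- Check at a labelled root mask: only the selected placement gives the root mask 803. -/
noncomputable def ckFr (R : RT) (r : Nat) : Bool :=
  fc (selF (R.b r) r) fun s =>
  (List.range 12).all fun k => Nat.beq (rt (awl (wF.getD k []) r)) 803 == Nat.beq k s

theorem sum_single {n : Nat} {f : Nat → ℤ} {s : Nat} (h : ∀ k < n, k ≠ s → f k = 0) :
    ((List.range n).map f).sum = if s < n then f s else 0 := by
  induction n with
  | zero => simp
  | succ n ih =>
    rw [List.range_succ, List.map_append, List.sum_append,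
      ih (fun k hk hne => h k (by omega) hne)]
    simp only [List.map_cons, List.map_nil, List.sum_cons, List.sum_nil, add_zero]
    by_cases h1 : s < n
    · rw [if_pos h1, if_pos (by omega), h n (by omega) (by omega), add_zero]
    · rw [if_neg h1]
      by_cases h2 : s = n
      · subst h2
        rw [if_pos (by omega), zero_add]
      · rw [if_neg (by omega), h n (by omega) (fun e => h2 e.symm), add_zero]

theorem fz_ne {A B C D : ℤ} {x : Nat} (h : rt x ≠ 803) : fz A B C D x = 0 := by
  unfold fz
  rw [if_neg h]

theorem qF_spec {R : RT} {A B C D X OFF : Nat} (hX : X + D = OFF) {x : Nat}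
    (hR : ckFr R (rt x) = true) :
    ((qF wF A B C X OFF (R.b (rt x)) (rt x) x : Nat) : ℤ) =
      GF5 A B C D x + OFF := by
  unfold ckFr at hR
  rw [fc_eq] at hR
  have hk : ∀ k < 12, (rt (awl (wF.getD k []) x) = 803 ↔
      k = selF (R.b (rt x)) (rt x)) := by
    intro k hk
    have h1 := List.all_eq_true.1 hR k (List.mem_range.2 hk)
    have h2 : Nat.beq (rt (awl (wF.getD k []) (rt x))) 803 =
        Nat.beq k (selF (R.b (rt x)) (rt x)) := by
      simpa using h1
    rw [rt_awl _ x (w4_getD wF_ok k)]
    constructor
    · intro h
      rw [h, Nat.beq_refl] at h2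
      exact Nat.eq_of_beq_eq_true h2.symm
    · intro h
      rw [← h, Nat.beq_refl] at h2
      exact Nat.eq_of_beq_eq_true h2
  unfold GF5
  rw [sum_single (s := selF (R.b (rt x)) (rt x))
    (fun k hk' hne => fz_ne fun h => hne ((hk k hk').1 h))]
  generalize (R.b (rt x)) = b at *
  unfold qF selF at *
  cases hb : Nat.beq b 1711
  · simp only [hb] at hk ⊢
    simp
  · simp only [hb] at hk ⊢
    rw [fc_eq, fc_eq, aw1_eq, nthW_eq, fK_eq A B C D X OFF hX]
    generalize Nat.land (Nat.shiftRight kfT (Nat.mul 4 (rt x))) 15 = s at *
    by_cases hs : s < 12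
    · rw [if_pos hs]
    · rw [if_neg hs, List.getD_eq_default _ _ (by
        have : wF.length = 12 := rfl
        omega)]
      rw [awl, fz_ne]
      intro h
      have := (hk 0 (by norm_num)).1 h
      omega

theorem sumF {A B C D : ℤ} {f : Nat → Nat} {off : ℤ} {m : Nat} (hm : Adm m)
    (hf : ∀ x, Adm x → ((f x : Nat) : ℤ) = GF5 A B C D x + off) :
    (((((List.range 21).map (fun u => awl (fU u) m)).map f).sum : Nat) : ℤ) =
      fam treeF.tr (fz A B C D) m + 21 * off := by
  rw [famF_sum (fz_inv A B C D) hm, List.map_map]
  have key : ∀ n : Nat, ((((List.range n).map (f ∘ fun u => awl (fU u) m)).sum : Nat) : ℤ) =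
      ((List.range (12 * n)).map (fun y => fz A B C D (awl (fF y) m))).sum + n * off := by
    intro n
    induction n with
    | zero => simp
    | succ n ih =>
      have e : 12 * (n + 1) = 12 * n + 12 := by ring
      rw [List.range_succ, List.map_append, List.sum_append, Nat.cast_add, ih, e,
        List.range_add, List.map_append, List.sum_append, List.map_map]
      have h2 : ((List.range 12).map ((fun y => fz A B C D (awl (fF y) m)) ∘
          fun x => 12 * n + x)) =
          (List.range 12).map fun k => fz A B C D (awl (wF.getD k []) (awl (fU n) m)) := by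
        refine List.map_congr_left fun k hk => ?_
        have hk12 : k < 12 := List.mem_range.1 hk
        change fz A B C D (awl (fF (12 * n + k)) m) = _
        rw [fF, show (12 * n + k) / 12 = n by omega, show (12 * n + k) % 12 = k by omega,
          awl_append]
      rw [h2]
      simp only [List.map_cons, List.map_nil, List.sum_cons, List.sum_nil,
        Function.comp_apply, add_zero]
      rw [hf _ (adm_awl _ (fU_ok n) hm), GF5]
      push_cast
      ring
  have h21 := key 21
  rw [h21]
  norm_num

end KV
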