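import Pool.Agent.Helper41.KV.Fast
import Pool.Agent.Helper41.KV.SpecF

set_option autoImplicit false

/-!
Soundness of the fast evaluation with the degree equations and the functional.
-/

namespace KV

open KC

/-- The integrand of the five-root pass: squares, degree equations, functional. -/
noncomputable def pvF (Q5 D : BT) (A B C X OFF : Nat) (b fr r x : Nat) : Nat :=
  Nat.add (Nat.add (q5 Q5 b fr x) (qD D r x)) (qF wF A B C X OFF b r x)

theorem four {L : List Nat} (h0 : okL (qt L 0) = true) (h1 : okL (qt L 1) = true)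
    (h2 : okL (qt L 2) = true) (h3 : okL (qt L 3) = true) : ∀ i < 4, okL (qt L i) = true := by
  intro i hi
  have : i = 0 ∨ i = 1 ∨ i = 2 ∨ i = 3 := by omega
  rcases this with rfl | rfl | rfl | rfl
  · exact h0
  · exact h1
  · exact h2
  · exact h3

/-- Value with the degree equations and the functional. -/
theorem FV_F {T5 T3 T1 : Tab} {TD : TabD} {R : RT} {D : BT} {C0 : Nat} {A B C D' X OFF : Nat}
    (hR : GoodR T5 T3 T1 R)
    {gens : Nat → List (List Nat)} {cert : List (Nat × List (List Nat))}
    {AT : Nat → Nat → BT} (h5 : T5.Good gens cert) (h3 : T3.Good3 AT) (h1 : T1.Good1)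
    (hD : TD.Good) (hDR : ∀ r < 1024, vio0 r = false → ckDr TD D C0 r = true)
    (hF : ∀ r < 1024, vio0 r = false → ckFr R r = true) (hX : X + D' = OFF)
    {m : Nat} (hm : Adm m) :
    ((FV R (pvF T5.QT D A B C X OFF) T3.QT T1.QT m : Nat) : ℤ) =
      (fam tree5.tr T5.G5 m + (fam tree3.tr T3.G3 m + (fam tree1.tr T1.G1 m +
        fam treeD.tr TD.GD m))) + fam treeF.tr (fz A B C D') m +
        (21 * T5.OFF + 105 * T3.OFF + 70 * T1.OFF + 21 * C0 + 21 * OFF) := by
  unfold FV
  have key : ((xs m).map (pvx R (pvF T5.QT D A B C X OFF))).sum =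
      ((xs m).map (fun x => q5 T5.QT (R.b (rt x)) (R.fr (rt x)) x)).sum +
      (((xs m).map (fun x => qD D (rt x) x)).sum +
        ((xs m).map (fun x => qF wF A B C X OFF (R.b (rt x)) (rt x) x)).sum) := by
    generalize xs m = l
    induction l with
    | nil => rfl
    | cons a l ih =>
      simp only [List.map_cons, List.sum_cons, ih]
      unfold pvx r10 pvF
      rw [land_rt]
      simp only [Nat.add_eq]
      ring
  rw [key, Nat.cast_add, Nat.cast_add, Nat.cast_add, Nat.cast_add, FV3 hR h3 hm, FV1 hR h1 hm,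
    xs, sum21 (g := T5.G5) (off := T5.OFF) hm (G5_gn5 h5)
      (fun x hx => q5_spec hx (hR.c5 _ (rt_lt x) (vio0_rt hx))),
    sumD hD (off := C0) hm (fun x hx => qD_spec hx (hDR _ (rt_lt x) (vio0_rt hx))),
    sumF (off := OFF) hm (fun x hx => qF_spec hX (hF _ (rt_lt x) (vio0_rt hx)))]
  ring

end KV
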