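import Pool.Agent.Helper41.KV.GoodR
import Pool.Agent.Helper41.KV.FastF

set_option autoImplicit false
set_option maxRecDepth 100000

/-!
Check of the placements for the functional.
-/

namespace KV

open KC

theorem kF_all : ∀ l ∈ adms, l.all (ckFr R5) = true := by decide +kernel

theorem goodF : ∀ r < 1024, vio0 r = false → ckFr R5 r = true := fun r hr hv => by
  obtain ⟨l, hl, h⟩ := mem_adms hr hv
  exact List.all_eq_true.1 (kF_all l hl) r h

end KV
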