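import Pool.Agent.Helper41.KV.RT

set_option autoImplicit false

/-!
Positions of the pairs of flags.
-/

namespace KV

/-- Positions for three roots. -/
def l3 : PL :=
  (.C 0 808 (.C 16 1288 (.C 960 344 (.C 976 664 (.C 1024 824 (.C 1040 1960 (.C 272 2264 (.C 112
  2248 (.C 992 1800 (.C 160 648 (.C 176 1128 (.C 224 1464 (.C 544 1304 (.C 240 2104 (.C 560 1944
  (.C 32 1928 (.C 192 1768 (.C 1600 360 (.C 1616 680 (.C 1632 1160 (.C 1664 840 (.C 1680 1320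
  (.C 144 3208 (.C 1648 2616 (.C 1696 2776 (.C 2496 1976 (.C 304 3224 (.C 1728 2936 (.C 2528
  2136 (.C 624 3240 (.C 1744 3096 (.C 2544 2296 (.C 1104 3256 (.C 2448 1816 (.C 64 1448 (.C 480
  328 (.C 496 1144 (.C 592 2280 (.C 1072 2120 (.C 1712 1480 (.C 80 2088 (.C 512 1784 (.C 48 2728
  (.C 208 2568 (.C 256 2904 (.C 2464 856 (.C 288 3064 (.C 2480 1336 (.C 1056 2760 (.C 2400 376
  (.C 2416 696 (.C 128 3048 (.C 2432 1176 (.C 1008 2600 (.C 96 2888 (.C 528 2584 (.C 576 2744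
  (.C 608 3080 (.C 2512 1496 (.C 1088 2920 (.C 384 1512 (.C 704 1352 (.C 1184 872 (.C 432 2312
  (.C 1200 2008 (.C 1232 2168 (.C 1264 3304 (.C 1904 3144 (.C 2704 2344 (.C 1392 2200 (.C 912
  2360 (.C 2032 1560 (.C 1408 3000 (.C 928 3160 (.C 2832 1576 (.C 1424 3336 (.C 2864 2376 (.C
  2848 2216 (.C 2048 3016 (.C 944 3320 (.C 2064 3176 (.C 3184 2232 (.C 1584 3352 (.C 2384 3032
  (.C 400 2152 (.C 720 1992 (.C 1824 888 (.C 1840 1368 (.C 1872 1528 (.C 752 2328 (.C 464 3272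
  (.C 1856 2824 (.C 1888 2984 (.C 2688 2184 (.C 784 3288 (.C 2656 2024 (.C 416 2952 (.C 736 2792
  (.C 2624 904 (.C 448 3112 (.C 2640 1384 (.C 2672 1544 (.C 1248 2968 (.C 768 3128 (.C 1216 2808
  .E))))))))))))))))))))))))))))))))))))))))))))))))))))))))))))))))))))))))))))))))))))))))))))
  )))))))))))))

/-- Positions for one root. -/
def l1 : PL :=
  (.C 48 552 (.C 51 540 (.C 0 327 (.C 3 315 (.C 6 495 (.C 9 555 (.C 36 492 (.C 39 480 (.C 45 843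
  (.C 33 783 (.C 21 543 (.C 54 780 (.C 42 720 (.C 12 324 (.C 15 303 (.C 18 483 (.C 72 264 (.C 75
  243 (.C 78 423 (.C 24 312 (.C 27 300 (.C 57 840 (.C 30 723 (.C 96 432 (.C 99 420 (.C 102 660
  (.C 105 846 (.C 93 786 (.C 381 306 (.C 81 546 (.C 318 369 (.C 213 726 (.C 201 486 (.C 195 123
  (.C 189 498 (.C 609 330 (.C 69 558 (.C 84 252 (.C 87 240 (.C 90 663 (.C 156 372 (.C 159 360
  (.C 162 600 (.C 132 204 (.C 135 183 (.C 255 63 (.C 165 849 (.C 141 549 (.C 261 489 (.C 273 729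
  (.C 267 60 (.C 249 501 (.C 270 606 (.C 246 378 (.C 258 366 (.C 144 192 (.C 147 180 (.C 150 603
  (.C 138 363 (.C 153 789 (.C 126 375 (.C 129 561 (.C 120 207 (.C 435 66 (.C 441 309 (.C 429 321
  (.C 438 186 (.C 426 198 (.C 666 210 (.C 669 333
  .E))))))))))))))))))))))))))))))))))))))))))))))))))))))))))))))))))))))

/-- The 21 words, in reversed order. -/
def ru : List (List Nat) :=
  [[1, 0, 2, 1, 3, 2, 4, 3, 5, 4], [0, 2, 1, 3, 2, 4, 3, 5, 4], [0, 1, 3, 2, 4, 3, 5, 4],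
   [0, 1, 2, 4, 3, 5, 4], [0, 1, 2, 3, 5, 4], [0, 1, 2, 3, 4], [2, 1, 3, 2, 4, 3, 5, 4],
   [1, 3, 2, 4, 3, 5, 4], [1, 2, 4, 3, 5, 4], [1, 2, 3, 5, 4], [1, 2, 3, 4],
   [3, 2, 4, 3, 5, 4], [2, 4, 3, 5, 4], [2, 3, 5, 4], [2, 3, 4], [4, 3, 5, 4], [3, 5, 4],
   [3, 4], [5, 4], [4], []]

end KV
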