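import Pool.Agent.Helper41.KV.RT
import Pool.Agent.Helper41.KV.Pos
import Pool.Agent.Helper41.KV.PackD

set_option autoImplicit false

/-!
Evaluation of a block of at most 32 masks.
-/

namespace KV

open KC

/-- Apply a word to a packed vector. -/
noncomputable def awK (l : List Nat) : Nat → Nat :=
  List.rec (motive := fun _ => Nat → Nat) (fun X => X) (fun i _ ih X => ih (tauV i X)) l

/-- The packed vectors for a list of words. -/
noncomputable def vecs {α : Type} (X : Nat) (l : List (List Nat)) : (List Nat → α) → α :=
  List.rec (motive := fun _ => (List Nat → α) → α) (fun k => k [])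
    (fun W _ ih k => fc (awK W X) fun Y => ih fun L => k (Y :: L)) l

/-- Check of `value + ex m ≤ bd m` for the masks of a list. -/
noncomputable def blk (R : RT) (pv : Nat → Nat → Nat → Nat → Nat) (Q3 Q1 : BT)
    (ex bd : Nat → Nat) (L : List Nat) : Bool :=
  fc (pack L) fun X => vecs X ru fun XS =>
  List.rec (motive := fun _ => Nat → Bool) (fun _ => true)
    (fun m _ ih s => Bool.rec (motive := fun _ => Bool) false (ih (Nat.add s 35))
      (Nat.ble (Nat.add (val R pv Q3 Q1 l3 l1 XS s) (ex m)) (bd m))) L 0

/-- The masks of a block are in range. -/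
def okL (L : List Nat) : Bool := Nat.ble L.length 32 && L.all fun m => Nat.blt m 34359738368

/-- One quarter of a block. -/
def qt (L : List Nat) (i : Nat) : List Nat := (L.drop (32 * i)).take 32

end KV
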