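import Pool.Agent.Helper13.KC.BT

set_option autoImplicit false

/-!
The tree of the labelled root masks, and the fast evaluation of the square terms.
-/

namespace KV

open KC

/-- Search tree; a leaf holds the first row of the type, the packed flag indices of all links
(9 bits each), the packed flags of the root triples (16 bits each) and of the root pairs
(vertex, triple) (3 bits each). -/
inductive RT
  | L (b fr w3 w1 : Nat)
  | N (k : Nat) (a b : RT)

/-- Look-up. -/
noncomputable def RT.get {α : Type} (t : RT) : Nat → (Nat → Nat → Nat → Nat → α) → α :=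
  RT.rec (motive := fun _ => Nat → (Nat → Nat → Nat → Nat → α) → α)
    (fun b fr w3 w1 _ k => k b fr w3 w1)
    (fun k _ _ ia ib i => Bool.rec (motive := fun _ => (Nat → Nat → Nat → Nat → α) → α)
      (ia i) (ib i) (Nat.ble k i)) t

/-- Lists of pairs of numbers. -/
inductive PL
  | E
  | C (s t : Nat) (l : PL)

/-- Field of 9 bits of a row. -/
noncomputable def f9 (fr l : Nat) : Nat := Nat.land (Nat.shiftRight fr (Nat.mul 9 l)) 511

/-- Entry of 96 bits of a row. -/
noncomputable def e96 (X g : Nat) : Nat :=
  Nat.land (Nat.shiftRight X (Nat.mul 96 g)) 79228162514264337593543950335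

/-- Five-root term of a mask, given the leaf. -/
noncomputable def q5 (Q : BT) (b fr x : Nat) : Nat :=
  fc (Nat.add b (f9 fr (Nat.land (Nat.shiftRight x 10) 1023))) fun i =>
  e96 (Q.get i) (f9 fr (Nat.land (Nat.shiftRight x 20) 1023))

/-- Degree term of a mask. -/
noncomputable def qD (D : BT) (r x : Nat) : Nat := e96 (D.get r) (Nat.shiftRight x 30)

/-- Walk over the 21 packed vectors (in reversed order), field at position `s`. -/
noncomputable def walk (R : RT) (pv : Nat → Nat → Nat → Nat → Nat) (s : Nat) (l : List Nat) :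
    Nat → Nat → Nat → (Nat → Nat → Nat → Nat) → Nat :=
  List.rec (motive := fun _ => Nat → Nat → Nat → (Nat → Nat → Nat → Nat) → Nat)
    (fun acc v3 v1 k => k acc v3 v1)
    (fun X _ ih acc v3 v1 k =>
      fc (Nat.land (Nat.shiftRight X s) 34359738367) fun x =>
      fc (Nat.land x 1023) fun r =>
      R.get r fun b fr w3 w1 =>
      ih (Nat.add acc (pv b fr r x))
        (Nat.add (Nat.shiftLeft v3 160) w3) (Nat.add (Nat.shiftLeft v1 60) w1) k) l

/-- Sum over pairs of fields. -/
noncomputable def sumP (Q : BT) (M : Nat) (l : PL) : Nat → Nat → Nat :=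
  PL.rec (motive := fun _ => Nat → Nat → Nat) (fun _ acc => acc)
    (fun s t _ ih V acc => ih V (fc (Nat.land (Nat.shiftRight V s) M) fun i =>
      Nat.add acc (e96 (Q.get i) (Nat.land (Nat.shiftRight V t) M)))) l

/-- Value of one mask: field at position `s` of the 21 vectors. -/
noncomputable def val (R : RT) (pv : Nat → Nat → Nat → Nat → Nat) (Q3 Q1 : BT) (l3 l1 : PL)
    (l : List Nat) (s : Nat) : Nat :=
  walk R pv s l 0 0 0 fun acc v3 v1 =>
  fc v3 fun V3 => fc v1 fun V1 =>
  sumP Q1 7 l1 V1 (sumP Q3 255 l3 V3 acc)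

end KV
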