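import Pool.Agent.Helper41.KV.Words
import Pool.Agent.Helper41.KD.D

set_option autoImplicit false
set_option maxRecDepth 100000

/-!
The transversal sums in terms of the increasing 5-sets.
-/

namespace KV

open KC

/-- Every word is a word of the family `f` followed by generators. -/
def cvt (f : Nat → List Nat) (gens : List (List Nat)) :
    List (List Nat) → List (Nat × List Nat) → Bool
  | [], [] => true
  | W :: Ws, c :: cs => eq7 W (f c.1 ++ KC.flat gens c.2) && cvt f gens Ws cs
  | _, _ => false

theorem cvt_sum {f : Nat → List Nat} {gens : List (List Nat)} (hf : ∀ y, wok (f y) = true)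
    (hgens : ∀ W ∈ gens, wok W = true) {g : Nat → ℤ}
    (hg : ∀ W ∈ gens, ∀ m, Adm m → g (awl W m) = g m) {m : Nat}
    (hm : Adm m) : ∀ (Ws : List (List Nat)) (cs : List (Nat × List Nat)),
    (∀ W ∈ Ws, wok W = true) → cvt f gens Ws cs = true →
    (Ws.map (fun W => g (awl W m))).sum =
      ((cs.map Prod.fst).map (fun y => g (awl (f y) m))).sum
  | [], [], _, _ => rfl
  | [], _ :: _, _, h => by simp [cvt] at h
  | _ :: _, [], _, h => by simp [cvt] at h
  | W :: Ws, c :: cs, hW, h => by
    rw [cvt, Bool.and_eq_true] at h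
    have ih := cvt_sum hf hgens hg hm Ws cs (fun W h' => hW W (List.mem_cons_of_mem _ h')) h.2
    have hWok := hW W List.mem_cons_self
    have e1 : awl W m = awl (f c.1 ++ KC.flat gens c.2) m :=
      awl_of_eq7 hWok (wok_append (hf _) (wok_flat hgens _)) h.1 hm.lt
    have e2 : g (awl W m) = g (awl (f c.1) m) := by
      rw [e1, awl_append]
      exact inv_flat hgens hg _ _ (adm_awl _ (hf _) hm)
    simp only [List.map_cons, List.sum_cons, ih, e2]

/-- The word of the increasing 5-set. -/
def fU (u : Nat) : List Nat := wU.getD u []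
/-- The word for three roots. -/
def f3 (y : Nat) : List Nat := fU (y / 10) ++ wP.getD (y % 10) []
/-- The word for one root. -/
def f1 (y : Nat) : List Nat := fU (y / 20) ++ wR.getD (y % 20) []
/-- The word for the degree equations. -/
def fD (y : Nat) : List Nat := fU (y / 5) ++ wV.getD (y % 5) []

theorem wU_ok : ∀ W ∈ wU, wok W = true := by decide +kernel
theorem wP_ok : ∀ W ∈ wP, w4 W = true := by decide +kernel
theorem wR_ok : ∀ W ∈ wR, w4 W = true := by decide +kernel
theorem wV_ok : ∀ W ∈ wV, w4 W = true := by decide +kernel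

theorem w4_getD {l : List (List Nat)} (h : ∀ W ∈ l, w4 W = true) (k : Nat) :
    w4 (l.getD k []) = true := by
  by_cases hk : k < l.length
  · rw [List.getD_eq_getElem _ _ hk]
    exact h _ (List.getElem_mem hk)
  · rw [List.getD_eq_default _ _ (by omega)]
    rfl

theorem fU_ok (u : Nat) : wok (fU u) = true := wok_getD wU_ok u
theorem f3_ok (y : Nat) : wok (f3 y) = true :=
  wok_append (fU_ok _) (w4_wok (w4_getD wP_ok _))
theorem f1_ok (y : Nat) : wok (f1 y) = true :=
  wok_append (fU_ok _) (w4_wok (w4_getD wR_ok _))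
theorem fD_ok (y : Nat) : wok (fD y) = true :=
  wok_append (fU_ok _) (w4_wok (w4_getD wV_ok _))

/-- Generators for five roots. -/
def gn5 : List (List Nat) := [[0], [1], [2], [3], [5]]
/-- Generators for three roots. -/
def gn3 : List (List Nat) := [[0], [1], [3], [5], [4, 3, 5, 4]]
/-- Generators for one root. -/
def gn1 : List (List Nat) := [[1], [2], [4], [5], wB]

theorem cv5 : cvt fU gn5 tree5.tr e5 = true := by decide +kernel
theorem cv3 : cvt f3 gn3 tree3.tr e3 = true := by decide +kernel
theorem cv1 : cvt f1 gn1 tree1.tr e1 = true := by decide +kernel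
theorem cvD : cvt fD gensD treeD.tr eD = true := by decide +kernel

theorem pm5 : (e5.map Prod.fst).Perm (List.range 21) := by decide +kernel
theorem pmD : (eD.map Prod.fst).Perm (List.range 105) := by decide +kernel

theorem tr5_ok : ∀ W ∈ tree5.tr, wok W = true := by
  have : (tree5.tr.all wok) = true := by decide +kernel
  exact List.all_eq_true.1 this
theorem tr3_ok : ∀ W ∈ tree3.tr, wok W = true := by
  have : (tree3.tr.all wok) = true := by decide +kernel
  exact List.all_eq_true.1 this
theorem tr1_ok : ∀ W ∈ tree1.tr, wok W = true := by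
  have : (tree1.tr.all wok) = true := by decide +kernel
  exact List.all_eq_true.1 this
theorem trD_ok : ∀ W ∈ treeD.tr, wok W = true := by
  have : (treeD.tr.all wok) = true := by decide +kernel
  exact List.all_eq_true.1 this

theorem gn5_ok : ∀ W ∈ gn5, wok W = true := by decide +kernel
theorem gn3_ok : ∀ W ∈ gn3, wok W = true := by decide +kernel
theorem gn1_ok : ∀ W ∈ gn1, wok W = true := by decide +kernel
theorem gnD_ok : ∀ W ∈ gensD, wok W = true := by decide +kernel

theorem fam5_eq {g : Nat → ℤ} (hg : ∀ W ∈ gn5, ∀ m, Adm m → g (awl W m) = g m) {m : Nat}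
    (hm : Adm m) :
    fam tree5.tr g m = ((List.range 21).map (fun u => g (awl (fU u) m))).sum := by
  rw [fam, cvt_sum fU_ok gn5_ok hg hm _ _ tr5_ok cv5]
  exact (pm5.map _).sum_eq

theorem fam3_eq {g : Nat → ℤ} (hg : ∀ W ∈ gn3, ∀ m, Adm m → g (awl W m) = g m) {m : Nat}
    (hm : Adm m) :
    fam tree3.tr g m = ((e3.map Prod.fst).map (fun y => g (awl (f3 y) m))).sum := by
  rw [fam, cvt_sum f3_ok gn3_ok hg hm _ _ tr3_ok cv3]

theorem fam1_eq {g : Nat → ℤ} (hg : ∀ W ∈ gn1, ∀ m, Adm m → g (awl W m) = g m) {m : Nat}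
    (hm : Adm m) :
    fam tree1.tr g m = ((e1.map Prod.fst).map (fun y => g (awl (f1 y) m))).sum := by
  rw [fam, cvt_sum f1_ok gn1_ok hg hm _ _ tr1_ok cv1]

theorem famD_eq {g : Nat → ℤ} (hg : ∀ W ∈ gensD, ∀ m, Adm m → g (awl W m) = g m) {m : Nat}
    (hm : Adm m) :
    fam treeD.tr g m = ((List.range 105).map (fun y => g (awl (fD y) m))).sum := by
  rw [fam, cvt_sum fD_ok gnD_ok hg hm _ _ trD_ok cvD]
  exact (pmD.map _).sum_eq

/-! Partners. -/

/-- Exchange of the two blocks for three roots. -/
def ckp3 : List Nat → List Nat → Bool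
  | [], [] => true
  | y :: ys, z :: zs => eq7 (f3 y ++ [4, 3, 5, 4]) (f3 z) && (Nat.blt y 210 && (Nat.blt z 210 &&
      ckp3 ys zs))
  | _, _ => false

/-- Exchange of the two blocks for one root. -/
def ckp1 : List Nat → List Nat → Bool
  | [], [] => true
  | y :: ys, z :: zs => eq7 (f1 y ++ wB) (f1 z) && (Nat.blt y 420 && (Nat.blt z 420 &&
      ckp1 ys zs))
  | _, _ => false

theorem pt3 : ckp3 (e3.map Prod.fst) p3 = true := by decide +kernel
theorem pt1 : ckp1 (e1.map Prod.fst) p1 = true := by decide +kernel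

end KV
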