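import Pool.Agent.Helper18.KT.FZ
import Pool.Agent.Helper41.KV.Conv

set_option autoImplicit false
set_option maxRecDepth 100000

/-!
The arrangements for the functional of the stability step, by increasing 5-sets.
-/

namespace KV

open KC

/-- The 12 words for a labelled root type with stabiliser of order 10. -/
def wF : List (List Nat) :=
  [[], [3], [2], [2, 3], [3, 2], [2, 3, 2], [1, 2], [1, 2, 3], [1, 3, 2], [1, 2, 3, 2],
   [2, 1, 3, 2], [1, 2, 1, 3, 2]]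

/-- Certificate. -/
def eF : List (Nat × List Nat) :=
  [(0, []), (2, []), (3, []), (5, [1]), (72, []), (74, []), (75, []), (77, [1]), (41, [1]),
   (39, []), (38, []), (43, [0]), (86, [2]), (87, [2]), (89, [1, 2]), (112, [1, 2]),
   (110, [1, 2]), (84, [1, 2]), (109, [2]), (108, [2]), (91, [0, 2]), (90, [0, 2]),
   (95, [1, 2]), (73, [0]), (78, []), (79, [0]), (11, [0]), (4, [0]), (10, []), (127, []),
   (129, []), (128, [0]), (130, [0]), (131, [0]), (46, [0]), (124, [0]), (125, [0]),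
   (159, [0, 2]), (163, [0, 2]), (82, [0]), (126, [0]), (123, [0, 1]), (14, []), (15, [0]),
   (19, [0, 1]), (22, [1]), (80, [1]), (7, [0, 1]), (26, []), (27, []), (29, []), (28, []),
   (52, []), (53, [0]), (57, [0]), (33, [0]), (32, []), (56, [0]), (58, [0]), (59, []),
   (142, []), (134, [0]), (135, []), (55, []), (54, [0, 1]), (50, [0, 1]), (136, [0]),
   (137, [0]), (141, [0]), (140, []), (132, [0]), (133, []), (138, []), (139, []),
   (144, [0, 2]), (145, [2]), (34, [0]), (35, [0]), (93, [0]), (92, [0]), (94, [0, 1]),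
   (153, [0]), (149, [0, 1]), (143, [0, 1]), (161, [0, 2]), (165, [0, 2]), (164, [0, 2]),
   (166, [0, 2]), (167, [2]), (162, [0, 1, 2]), (158, [0, 1, 0, 2]), (160, [2]), (157, [2]),
   (156, [0, 2]), (69, [0, 2]), (48, [0, 2]), (61, [2]), (49, [1]), (51, [1]), (88, []),
   (85, []), (24, []), (25, [0]), (30, []), (31, [0]), (1, [0]), (6, [1]), (8, [1]), (42, [1]),
   (44, [1]), (20, [1]), (36, [0]), (37, [0]), (18, [1]), (9, [1]), (122, [1]), (120, []),
   (121, []), (12, []), (13, []), (16, []), (17, [0]), (21, [0, 1]), (45, [0, 1]),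
   (47, [0, 1]), (83, [0, 1]), (76, [0, 1]), (81, [0, 1, 0]), (23, [0, 1, 0]), (70, [1, 0]),
   (67, [0, 1]), (63, [0]), (62, [0]), (98, [0]), (106, []), (107, []), (155, []),
   (150, [0, 1]), (146, [0, 1, 0]), (148, [0, 1, 0]), (100, [0, 1, 0]), (152, [0, 1, 0]),
   (64, [0, 1, 0]), (68, [0, 1, 0]), (66, [0, 1, 0]), (104, [0, 1, 0]), (116, [0, 1, 0, 2]),
   (147, [0, 1]), (151, [0]), (154, []), (71, []), (102, [0, 1]), (170, [0, 1]), (178, [1]),
   (175, [0, 1, 0]), (168, [1, 0, 1]), (97, [0, 1, 0, 1, 2]), (176, [0, 1, 0, 1, 0]),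
   (177, [1, 0, 1, 0]), (173, [1, 0, 1, 0]), (172, [1, 0, 1, 0]), (171, [0, 1, 0, 1]),
   (237, [1, 0, 1, 0]), (233, [1, 0, 1, 0]), (232, [0, 1, 0, 1, 0]), (229, [0, 1, 0, 1, 0]),
   (169, [0, 1, 0, 1, 0]), (244, [0, 1, 0, 1, 0, 2]), (245, [0, 1, 0, 1, 0, 2]),
   (243, [0, 1, 0, 1, 2]), (221, [0, 1, 0, 1, 0, 2]), (219, [0, 1, 0, 1, 2]),
   (217, [0, 1, 0, 2]), (225, [1, 2]), (223, [2]), (222, [0, 2]), (186, [0, 1, 0, 2]),
   (188, [0, 1, 0, 1, 2]), (180, [1, 0, 1, 0, 2]), (181, [1, 0, 1, 0, 2]),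
   (187, [0, 1, 0, 1, 2]), (189, [0, 1, 0, 1, 2]), (183, [1, 2]), (185, [1, 2]),
   (182, [0, 1, 2]), (190, [2]), (191, [2]), (216, [0, 1, 0, 2]), (220, [1, 0, 1, 0, 2]),
   (227, [1, 0, 1, 0, 2]), (226, [1, 0, 1, 0, 2]), (224, [1, 0, 1, 0, 2]), (251, [2]),
   (250, [0, 2]), (242, [0, 2]), (239, [1, 0, 1]), (236, [0, 1, 0, 1, 0]), (228, [1, 0, 1]),
   (235, [0, 1, 0]), (238, [1]), (230, [0]), (231, []), (105, [1, 0, 1, 0, 2]),
   (207, [0, 1, 0, 2]), (205, [0, 1, 0, 2]), (213, [1, 2]), (211, [2]), (204, [0, 1, 2]),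
   (212, [1, 2]), (200, [1, 2]), (198, [1, 0, 2]), (194, [1, 0, 1, 2]), (203, [1, 0, 1, 0, 2]),
   (193, [2]), (196, [1, 2]), (208, [1, 2]), (184, [1, 2]), (197, [0, 2]), (192, [0, 1, 2]),
   (199, [1, 0, 2]), (202, [0, 1, 0, 1, 2]), (195, [1, 0, 1, 0, 2]), (201, [2]),
   (209, [0, 1, 0, 2]), (215, [1, 2]), (210, [0, 1, 2]), (206, [0, 1, 2]), (214, [1, 2]),
   (218, [0, 1, 2]), (248, [0, 1, 0, 1, 0, 2]), (240, [1, 0, 1, 0, 2]), (241, [1, 0, 1, 0, 2]),
   (246, [0, 1, 0, 1, 0, 2]), (234, [0, 1, 0, 1, 0, 2]), (249, [0, 1, 0, 1, 0, 2]),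
   (247, [0, 1, 0, 1, 0, 2]), (174, [0, 1]), (114, [0, 1, 2]), (179, []), (119, [2]),
   (118, [2]), (99, [0]), (65, [1, 0]), (60, [1, 0]), (96, [1, 0]), (103, [0, 1, 0]),
   (115, [0, 1, 0, 2]), (101, [1]), (113, [1, 2]), (111, [1, 2]), (117, [0, 1, 0, 2]), (40, [])]

/-- The word for the functional. -/
def fF (y : Nat) : List Nat := fU (y / 12) ++ wF.getD (y % 12) []

theorem wF_ok : ∀ W ∈ wF, w4 W = true := by decide +kernel

theorem fF_ok (y : Nat) : wok (fF y) = true :=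
  wok_append (fU_ok _) (w4_wok (w4_getD wF_ok _))

theorem cvF : cvt fF gensF treeF.tr eF = true := by decide +kernel

theorem pmF : (eF.map Prod.fst).Perm (List.range 252) := by decide +kernel

theorem trF_ok : ∀ W ∈ treeF.tr, wok W = true := by
  have : (treeF.tr.all wok) = true := by decide +kernel
  exact List.all_eq_true.1 this

theorem gnF_ok : ∀ W ∈ gensF, wok W = true := by decide +kernel

theorem famF_sum {g : Nat → ℤ} (hg : ∀ W ∈ gensF, ∀ m, Adm m → g (awl W m) = g m) {m : Nat}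
    (hm : Adm m) :
    fam treeF.tr g m = ((List.range 252).map (fun y => g (awl (fF y) m))).sum := by
  rw [fam, cvt_sum fF_ok gnF_ok hg hm _ _ trF_ok cvF]
  exact (pmF.map _).sum_eq

end KV
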