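import Pool.Agent.Helper41.KV.SpecD
import Pool.Agent.Helper41.KV.EvD

set_option autoImplicit false

/-!
Soundness of the fast evaluation.
-/

namespace KV

open KC

theorem awK_eq : ∀ (l : List Nat) (X : Nat), awK l X = awV l X
  | [], _ => rfl
  | i :: l, X => awK_eq l (tauV i X)

theorem vecs_eq {α : Type} (X : Nat) : ∀ (l : List (List Nat)) (k : List Nat → α),
    vecs X l k = k (l.map fun W => awV W X)
  | [], _ => rfl
  | W :: l, k => by
    change (fc (awK W X) fun Y => vecs X l fun L => k (Y :: L)) = _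
    rw [fc_eq, vecs_eq X l, awK_eq]
    rfl

/-- Closed form of the value. -/
noncomputable def FV (R : RT) (pv : Nat → Nat → Nat → Nat → Nat) (Q3 Q1 : BT) (m : Nat) : Nat :=
  ((xs m).map (pvx R pv)).sum +
    (l3.toList.map fun p =>
      e96 (Q3.get (fm (vec 160 (fun x => R.w3 (r10 x)) (xs m)) 255 p.1))
        (fm (vec 160 (fun x => R.w3 (r10 x)) (xs m)) 255 p.2)).sum +
    (l1.toList.map fun p =>
      e96 (Q1.get (fm (vec 60 (fun x => R.w1 (r10 x)) (xs m)) 7 p.1))
        (fm (vec 60 (fun x => R.w1 (r10 x)) (xs m)) 7 p.2)).sum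

theorem ru_eq : ru = ((List.range 21).map fU).reverse := by decide +kernel

theorem val_fld (R : RT) (pv : Nat → Nat → Nat → Nat → Nat) (Q3 Q1 : BT) (L : List Nat)
    (hL : ∀ m ∈ L, m < 2 ^ 35) (j : Nat) (hj : j < 32) (hj2 : j < L.length) :
    val R pv Q3 Q1 l3 l1 (ru.map fun W => awV W (pack L)) (35 * j) =
      FV R pv Q3 Q1 (L.getD j 0) := by
  rw [ru_eq, List.map_reverse, val_eq]
  have e : (((List.range 21).map fU).map fun W => awV W (pack L)).map (fs (35 * j)) =
      xs (L.getD j 0) := by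
    rw [List.map_map, List.map_map, xs]
    refine List.map_congr_left fun u _ => ?_
    have h1 : fld (awV (fU u) (pack L)) j = awl (fU u) (fld (pack L) j) :=
      fld_awV _ _ _ (fU_ok u) hj
    rw [fld_pack L j hL hj2] at h1
    exact h1
  rw [e]
  rfl

theorem blk_rec (v : Nat → Nat) (ex bd : Nat → Nat) : ∀ (L : List Nat) (s : Nat),
    List.rec (motive := fun _ => Nat → Bool) (fun _ => true)
      (fun m _ ih s => Bool.rec (motive := fun _ => Bool) false (ih (Nat.add s 35))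
        (Nat.ble (Nat.add (v s) (ex m)) (bd m))) L s = true →
    ∀ j < L.length, v (s + 35 * j) + ex (L.getD j 0) ≤ bd (L.getD j 0)
  | [], _, _, j, hj => absurd hj (by simp)
  | m :: L, s, h, j, hj => by
    have h1 : Nat.ble (Nat.add (v s) (ex m)) (bd m) = true ∧
        List.rec (motive := fun _ => Nat → Bool) (fun _ => true)
      (fun m _ ih s => Bool.rec (motive := fun _ => Bool) false (ih (Nat.add s 35))
        (Nat.ble (Nat.add (v s) (ex m)) (bd m))) L (Nat.add s 35) = true := by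
      change Bool.rec (motive := fun _ => Bool) false _
        (Nat.ble (Nat.add (v s) (ex m)) (bd m)) = true at h
      cases hb : Nat.ble (Nat.add (v s) (ex m)) (bd m)
      · rw [hb] at h; exact absurd h (by simp)
      · rw [hb] at h; exact ⟨rfl, h⟩
    rcases j with _ | j
    · have := Nat.le_of_ble_eq_true h1.1
      simpa using this
    · have ih := blk_rec v ex bd L _ h1.2 j (by simpa using hj)
      have e : s + 35 * (j + 1) = Nat.add s 35 + 35 * j := by
        change _ = s + 35 + 35 * j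
        ring
      rw [e, List.getD_cons_succ]
      exact ih

theorem okL_lt {L : List Nat} (h : okL L = true) : L.length ≤ 32 ∧ ∀ m ∈ L, m < 2 ^ 35 := by
  unfold okL at h
  rw [Bool.and_eq_true] at h
  refine ⟨Nat.le_of_ble_eq_true h.1, fun m hm => ?_⟩
  have := List.all_eq_true.1 h.2 m hm
  exact Nat.blt_eq ▸ this

theorem blk_sound {R : RT} {pv : Nat → Nat → Nat → Nat → Nat} {Q3 Q1 : BT} {ex bd : Nat → Nat}
    {L : List Nat} (hL : okL L = true) (h : blk R pv Q3 Q1 ex bd L = true) :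
    ∀ m ∈ L, FV R pv Q3 Q1 m + ex m ≤ bd m := by
  obtain ⟨h32, hlt⟩ := okL_lt hL
  intro m hm
  obtain ⟨j, hj, rfl⟩ := List.mem_iff_getElem.1 hm
  unfold blk at h
  rw [fc_eq, vecs_eq] at h
  have h1 := blk_rec (fun s => val R pv Q3 Q1 l3 l1 (ru.map fun W => awV W (pack L)) s) ex bd
    L 0 h j hj
  rw [Nat.zero_add, val_fld R pv Q3 Q1 L hlt j (by omega) hj, List.getD_eq_getElem _ _ hj] at h1
  exact h1

theorem mem_qt {L : List Nat} (hL : L.length ≤ 128) {m : Nat} (hm : m ∈ L) :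
    ∃ i < 4, m ∈ qt L i := by
  obtain ⟨n, hn, rfl⟩ := List.mem_iff_getElem.1 hm
  refine ⟨n / 32, by omega, ?_⟩
  unfold qt
  refine List.mem_iff_getElem.2 ⟨n % 32, ?_, ?_⟩
  · simp only [List.length_take, List.length_drop]
    omega
  · simp only [List.getElem_take, List.getElem_drop]
    congr 1
    omega

/-- The whole block. -/
theorem blk4 {R : RT} {pv : Nat → Nat → Nat → Nat → Nat} {Q3 Q1 : BT} {ex bd : Nat → Nat}
    {L : List Nat} (hl : Nat.ble L.length 128 = true) (hL : ∀ i < 4, okL (qt L i) = true)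
    (h0 : blk R pv Q3 Q1 ex bd (qt L 0) = true) (h1 : blk R pv Q3 Q1 ex bd (qt L 1) = true)
    (h2 : blk R pv Q3 Q1 ex bd (qt L 2) = true) (h3 : blk R pv Q3 Q1 ex bd (qt L 3) = true) :
    ∀ m ∈ L, FV R pv Q3 Q1 m + ex m ≤ bd m := by
  intro m hm
  obtain ⟨i, hi, h⟩ := mem_qt (Nat.le_of_ble_eq_true hl) hm
  have : i = 0 ∨ i = 1 ∨ i = 2 ∨ i = 3 := by omega
  rcases this with rfl | rfl | rfl | rfl
  · exact blk_sound (hL 0 hi) h0 m h
  · exact blk_sound (hL 1 hi) h1 m h
  · exact blk_sound (hL 2 hi) h2 m h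
  · exact blk_sound (hL 3 hi) h3 m h

/-! The value in terms of the families. -/

/-- All the fixed checks of the tree. -/
structure GoodR (T5 T3 T1 : Tab) (R : RT) : Prop where
  c5 : ∀ r < 1024, vio0 r = false → ck5r T5 R r = true
  c3 : ∀ r < 1024, vio0 r = false → ck3r T3 R r = true
  c1 : ∀ r < 1024, vio0 r = false → ck1r T1 R r = true
  rb : T1.rb 0 = 0

theorem G5_gn5 {T : Tab} {gens : Nat → List (List Nat)} {cert : List (Nat × List (List Nat))}
    (h : T.Good gens cert) : ∀ W ∈ gn5, ∀ m, Adm m → T.G5 (awl W m) = T.G5 m :=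
  Tab.G5_inv h

/-- Value of the three-root part. -/
theorem FV3 {T5 T3 T1 : Tab} {R : RT} (hR : GoodR T5 T3 T1 R) {AT : Nat → Nat → BT}
    (h3 : T3.Good3 AT) {m : Nat} (hm : Adm m) :
    (((l3.toList.map fun p =>
      e96 (T3.QT.get (fm (vec 160 (fun x => R.w3 (r10 x)) (xs m)) 255 p.1))
        (fm (vec 160 (fun x => R.w3 (r10 x)) (xs m)) 255 p.2)).sum : Nat) : ℤ) =
      fam tree3.tr T3.G3 m + 105 * T3.OFF := by
  rw [l3_eq, term3 hR.c3 hm _ _ pt3, fam3_eq (Tab.G3_inv h3) hm]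
  have : ((e3.map Prod.fst).length : ℤ) = 105 := by decide +kernel
  rw [this]

/-- Value of the one-root part. -/
theorem FV1 {T5 T3 T1 : Tab} {R : RT} (hR : GoodR T5 T3 T1 R)
    (h1 : T1.Good1) {m : Nat} (hm : Adm m) :
    (((l1.toList.map fun p =>
      e96 (T1.QT.get (fm (vec 60 (fun x => R.w1 (r10 x)) (xs m)) 7 p.1))
        (fm (vec 60 (fun x => R.w1 (r10 x)) (xs m)) 7 p.2)).sum : Nat) : ℤ) =
      fam tree1.tr T1.G1 m + 70 * T1.OFF := by
  rw [l1_eq, term1 hR.c1 hR.rb hm _ _ pt1, fam1_eq (Tab.G1_inv h1) hm]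
  have : ((e1.map Prod.fst).length : ℤ) = 70 := by decide +kernel
  rw [this]

/-- Value with the five-root squares only. -/
theorem FV_sq {T5 T3 T1 : Tab} {R : RT} (hR : GoodR T5 T3 T1 R)
    {gens : Nat → List (List Nat)} {cert : List (Nat × List (List Nat))}
    {AT : Nat → Nat → BT} (h5 : T5.Good gens cert) (h3 : T3.Good3 AT) (h1 : T1.Good1)
    {m : Nat} (hm : Adm m) :
    ((FV R (fun b fr _ x => q5 T5.QT b fr x) T3.QT T1.QT m : Nat) : ℤ) =
      (fam tree5.tr T5.G5 m + (fam tree3.tr T3.G3 m + fam tree1.tr T1.G1 m)) +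
        (21 * T5.OFF + 105 * T3.OFF + 70 * T1.OFF) := by
  unfold FV
  rw [Nat.cast_add, Nat.cast_add, FV3 hR h3 hm, FV1 hR h1 hm, xs,
    sum21 (g := T5.G5) (off := T5.OFF) hm (G5_gn5 h5)]
  · ring
  · intro x hx
    have hc := hR.c5 _ (rt_lt x) (vio0_rt hx)
    have := q5_spec hx hc
    rw [← this]
    unfold pvx r10
    rw [land_rt]

/-- Value with a further family of five-root terms and the degree equations. -/
theorem FV_all {T5 T3 T1 : Tab} {TD : TabD} {R : RT} {D : BT} {C0 : Nat} {ef : Nat → Nat}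
    {GE : Nat → ℤ} {offE : ℤ} (hR : GoodR T5 T3 T1 R)
    {gens : Nat → List (List Nat)} {cert : List (Nat × List (List Nat))}
    {AT : Nat → Nat → BT} (h5 : T5.Good gens cert) (h3 : T3.Good3 AT) (h1 : T1.Good1)
    (hD : TD.Good) (hDR : ∀ r < 1024, vio0 r = false → ckDr TD D C0 r = true)
    (hE : ∀ W ∈ gn5, ∀ m, Adm m → GE (awl W m) = GE m)
    (hef : ∀ x, Adm x → ((ef x : Nat) : ℤ) = GE x + offE)
    {m : Nat} (hm : Adm m) :
    ((FV R (fun b fr r x => Nat.add (Nat.add (q5 T5.QT b fr x) (qD D r x)) (ef x))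
      T3.QT T1.QT m : Nat) : ℤ) =
      (fam tree5.tr T5.G5 m + (fam tree3.tr T3.G3 m + (fam tree1.tr T1.G1 m +
        (fam treeD.tr TD.GD m + fam tree5.tr GE m)))) +
        (21 * T5.OFF + 105 * T3.OFF + 70 * T1.OFF + 21 * C0 + 21 * offE) := by
  unfold FV
  have key : ((xs m).map (pvx R (fun b fr r x =>
      Nat.add (Nat.add (q5 T5.QT b fr x) (qD D r x)) (ef x)))).sum =
      ((xs m).map (fun x => q5 T5.QT (R.b (rt x)) (R.fr (rt x)) x)).sum +
      (((xs m).map (fun x => qD D (rt x) x)).sum + ((xs m).map ef).sum) := by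
    generalize xs m = l
    induction l with
    | nil => rfl
    | cons a l ih =>
      simp only [List.map_cons, List.sum_cons, ih]
      unfold pvx r10
      rw [land_rt]
      simp only [Nat.add_eq]
      ring
  rw [key, Nat.cast_add, Nat.cast_add, Nat.cast_add, Nat.cast_add, FV3 hR h3 hm, FV1 hR h1 hm,
    xs, sum21 (g := T5.G5) (off := T5.OFF) hm (G5_gn5 h5)
      (fun x hx => q5_spec hx (hR.c5 _ (rt_lt x) (vio0_rt hx))),
    sumD hD (off := C0) hm (fun x hx => qD_spec hx (hDR _ (rt_lt x) (vio0_rt hx))),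
    sum21 (g := GE) (off := offE) hm hE hef]
  ring

end KV
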