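import Pool.Agent.Helper41.KV.Spec5
import Pool.Agent.Helper41.KV.R5
import Pool.Agent.Helper13.KC.Data5

set_option autoImplicit false
set_option maxRecDepth 100000

/-!
Check of the rows of flag indices, part 0.
-/

namespace KV

open KC

theorem k5_0 : ([0, 1, 2, 3, 4, 5, 6, 8, 9, 10, 12, 16, 17, 18, 19, 20] : List Nat).all (ck5r T5base R5) = true := by
  decide +kernel

theorem k5_4 : ([108, 128, 129, 130, 131, 132, 133, 134, 136, 137, 138, 140, 144, 145, 148, 149] : List Nat).all (ck5r T5base R5) = true := by
  decide +kernel

theorem k5_8 : ([284, 288, 289, 290, 291, 292, 293, 294, 296, 297, 298, 300, 304, 308, 312, 316] : List Nat).all (ck5r T5base R5) = true := by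
  decide +kernel

theorem k5_12 : ([537, 538, 540, 544, 545, 546, 547, 552, 553, 554, 560, 562, 568, 570, 576, 577] : List Nat).all (ck5r T5base R5) = true := by
  decide +kernel

end KV
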