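import Pool.Agent.Helper41.KV.Spec5
import Pool.Agent.Helper41.KV.R5
import Pool.Agent.Helper13.KC.Data5

set_option autoImplicit false
set_option maxRecDepth 100000

/-!
Check of the rows of flag indices, part 1.
-/

namespace KV

open KC

theorem k5_1 : ([21, 22, 24, 25, 26, 28, 32, 33, 34, 35, 36, 37, 38, 40, 41, 42] : List Nat).all (ck5r T5base R5) = true := by
  decide +kernel

theorem k5_5 : ([152, 153, 156, 160, 161, 162, 163, 168, 169, 170, 176, 184, 192, 193, 194, 195] : List Nat).all (ck5r T5base R5) = true := by
  decide +kernel

theorem k5_9 : ([320, 321, 322, 323, 324, 325, 326, 336, 340, 352, 354, 356, 358, 384, 385, 388] : List Nat).all (ck5r T5base R5) = true := by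
  decide +kernel

theorem k5_13 : ([578, 579, 580, 581, 582, 592, 594, 596, 598, 608, 610, 640, 641, 642, 643, 648] : List Nat).all (ck5r T5base R5) = true := by
  decide +kernel

end KV
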