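import Pool.Agent.Helper41.KV.Spec5
import Pool.Agent.Helper41.KV.R5
import Pool.Agent.Helper13.KC.Data5

set_option autoImplicit false
set_option maxRecDepth 100000

/-!
Check of the rows of flag indices, part 2.
-/

namespace KV

open KC

theorem k5_2 : ([44, 48, 50, 52, 54, 56, 58, 60, 64, 65, 66, 67, 68, 69, 70, 72] : List Nat).all (ck5r T5base R5) = true := by
  decide +kernel

theorem k5_6 : ([196, 197, 198, 200, 201, 202, 204, 208, 212, 216, 220, 224, 226, 232, 234, 256] : List Nat).all (ck5r T5base R5) = true := by
  decide +kernel

theorem k5_10 : ([389, 392, 393, 396, 416, 417, 424, 425, 448, 449, 452, 453, 480, 512, 513, 514] : List Nat).all (ck5r T5base R5) = true := by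
  decide +kernel

theorem k5_14 : ([649, 650, 656, 657, 664, 665, 704, 705, 706, 707, 720, 768, 769, 770, 771, 772] : List Nat).all (ck5r T5base R5) = true := by
  decide +kernel

end KV
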