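import Pool.Agent.Helper41.KV.Spec5
import Pool.Agent.Helper41.KV.R5
import Pool.Agent.Helper13.KC.Data5

set_option autoImplicit false
set_option maxRecDepth 100000

/-!
Check of the rows of flag indices, part 3.
-/

namespace KV

open KC

theorem k5_3 : ([73, 74, 76, 80, 82, 84, 86, 88, 90, 92, 96, 98, 100, 102, 104, 106] : List Nat).all (ck5r T5base R5) = true := by
  decide +kernel

theorem k5_7 : ([257, 258, 259, 260, 261, 262, 264, 265, 266, 268, 272, 273, 276, 277, 280, 281] : List Nat).all (ck5r T5base R5) = true := by
  decide +kernel

theorem k5_11 : ([515, 516, 517, 518, 520, 521, 522, 524, 528, 529, 530, 531, 532, 533, 534, 536] : List Nat).all (ck5r T5base R5) = true := by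
  decide +kernel

theorem k5_15 : ([773, 774, 784, 785, 788, 789, 800, 801, 802, 803, 816, 896, 897] : List Nat).all (ck5r T5base R5) = true := by
  decide +kernel

end KV
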