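import Pool.Agent.Helper41.KV.Fast
import Pool.Agent.Helper41.KV.Rck0
import Pool.Agent.Helper41.KV.Rck1
import Pool.Agent.Helper41.KV.Rck2
import Pool.Agent.Helper41.KV.Rck3
import Pool.Agent.Helper13.KC.Data3
import Pool.Agent.Helper13.KC.Data1

set_option autoImplicit false
set_option maxRecDepth 100000

/-!
All the checks of the tree of labelled root masks.
-/

namespace KV

open KC

/-- Parts of the list of the admissible root masks. -/
def adms : List (List Nat) :=
  [[0, 1, 2, 3, 4, 5, 6, 8, 9, 10, 12, 16, 17, 18, 19, 20], [21, 22, 24, 25, 26, 28, 32, 33, 34,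
  35, 36, 37, 38, 40, 41, 42], [44, 48, 50, 52, 54, 56, 58, 60, 64, 65, 66, 67, 68, 69, 70, 72],
  [73, 74, 76, 80, 82, 84, 86, 88, 90, 92, 96, 98, 100, 102, 104, 106], [108, 128, 129, 130,
  131, 132, 133, 134, 136, 137, 138, 140, 144, 145, 148, 149], [152, 153, 156, 160, 161, 162,
  163, 168, 169, 170, 176, 184, 192, 193, 194, 195], [196, 197, 198, 200, 201, 202, 204, 208,
  212, 216, 220, 224, 226, 232, 234, 256], [257, 258, 259, 260, 261, 262, 264, 265, 266, 268,
  272, 273, 276, 277, 280, 281], [284, 288, 289, 290, 291, 292, 293, 294, 296, 297, 298, 300,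
  304, 308, 312, 316], [320, 321, 322, 323, 324, 325, 326, 336, 340, 352, 354, 356, 358, 384,
  385, 388], [389, 392, 393, 396, 416, 417, 424, 425, 448, 449, 452, 453, 480, 512, 513, 514],
  [515, 516, 517, 518, 520, 521, 522, 524, 528, 529, 530, 531, 532, 533, 534, 536], [537, 538,
  540, 544, 545, 546, 547, 552, 553, 554, 560, 562, 568, 570, 576, 577], [578, 579, 580, 581,
  582, 592, 594, 596, 598, 608, 610, 640, 641, 642, 643, 648], [649, 650, 656, 657, 664, 665,
  704, 705, 706, 707, 720, 768, 769, 770, 771, 772], [773, 774, 784, 785, 788, 789, 800, 801,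
  802, 803, 816, 896, 897]]

theorem adms_all : ((List.range 1024).all fun r => vio0 r || adms.any fun l => l.contains r) =
    true := by decide +kernel

theorem mem_adms {r : Nat} (hr : r < 1024) (hv : vio0 r = false) : ∃ l ∈ adms, r ∈ l := by
  have h := List.all_eq_true.1 adms_all r (List.mem_range.2 hr)
  rw [hv, Bool.false_or, List.any_eq_true] at h
  obtain ⟨l, hl, h⟩ := h
  exact ⟨l, hl, List.contains_iff_mem.1 h⟩

theorem k5_all : ∀ l ∈ adms, l.all (ck5r T5base R5) = true := by
  intro l hl
  unfold adms at hl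
  simp only [List.mem_cons, List.not_mem_nil, or_false] at hl
  rcases hl with rfl | rfl | rfl | rfl | rfl | rfl | rfl | rfl | rfl | rfl | rfl | rfl | rfl | rfl | rfl | rfl
  · exact k5_0
  · exact k5_1
  · exact k5_2
  · exact k5_3
  · exact k5_4
  · exact k5_5
  · exact k5_6
  · exact k5_7
  · exact k5_8
  · exact k5_9
  · exact k5_10
  · exact k5_11
  · exact k5_12
  · exact k5_13
  · exact k5_14
  · exact k5_15

theorem k3_all : ∀ l ∈ adms, l.all (ck3r T3base R5) = true := by decide +kernel

theorem k1_all : ∀ l ∈ adms, l.all (ck1r T1base R5) = true := by decide +kernel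

/-- The tree of the labelled root masks is correct, for any quadratic forms. -/
theorem goodR (Q5 Q3 Q1 : BT) (o5 o3 o1 : Nat) : GoodR (T5 Q5 o5) (T3 Q3 o3) (T1 Q1 o1) R5 where
  c5 := fun r hr hv => by
    obtain ⟨l, hl, h⟩ := mem_adms hr hv
    exact List.all_eq_true.1 (k5_all l hl) r h
  c3 := fun r hr hv => by
    obtain ⟨l, hl, h⟩ := mem_adms hr hv
    exact List.all_eq_true.1 (k3_all l hl) r h
  c1 := fun r hr hv => by
    obtain ⟨l, hl, h⟩ := mem_adms hr hv
    exact List.all_eq_true.1 (k1_all l hl) r h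
  rb := by
    show T1base.rb 0 = 0
    decide +kernel

end KV
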