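import Pool.Agent.Helper41.KV.Spec5
import Pool.Agent.Helper41.KV.Pos
import Pool.Agent.Helper13.KC.S3b

set_option autoImplicit false

/-!
The parts with three roots and one root, and the degree equations.
-/

namespace KV

open KC

theorem rt_awl' {l : List Nat} (h : w4 l = true) (x : Nat) : rt (awl l x) = rt (awl l (rt x)) :=
  rt_awl l x h

theorem cA_rt {x y : Nat} (h : rt x = rt y) : cA x = cA y := by
  have h1 := rt_cA x
  have h2 := rt_cA y
  omega

theorem mod2_rt {x y : Nat} (h : rt x = rt y) : x % 2 = y % 2 := by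
  have h1 := rt_cA x
  have h2 := rt_cA y
  omega

theorem cC_rt {x y : Nat} (h : rt x = rt y) : cC x = cC y := by
  unfold rt at h
  unfold cC
  omega

/-- Check of a labelled root mask, three roots. -/
noncomputable def ck3r (T : Tab) (R : RT) (r : Nat) : Bool :=
  fc (R.w3 r) fun w =>
  Nat.blt w (2 ^ 160) && (List.range 10).all fun k =>
    fc (awl (wP.getD k []) r) fun z => fc (Nat.land z 1) fun t => fc (T.fi t (cA z)) fun f =>
      Nat.beq (fm w 255 (Nat.mul 16 k)) (Nat.add (T.rb t) f) &&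
        Nat.beq (fm w 255 (Nat.add (Nat.mul 16 k) 8)) f

/-- Check of a labelled root mask, one root. -/
noncomputable def ck1r (T : Tab) (R : RT) (r : Nat) : Bool :=
  fc (R.w1 r) fun w =>
  Nat.blt w (2 ^ 60) && (List.range 20).all fun k =>
    fc (awl (wR.getD k []) r) fun z =>
      Nat.beq (fm w 7 (Nat.mul 3 k)) (T.fi 0 (cC z))

theorem ck3r_spec {T : Tab} {R : RT} {r : Nat} (h : ck3r T R r = true) :
    R.w3 r < 2 ^ 160 ∧ ∀ k < 10,
      fm (R.w3 r) 255 (16 * k) = T.rb ((awl (wP.getD k []) r) % 2) +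
        T.fi ((awl (wP.getD k []) r) % 2) (cA (awl (wP.getD k []) r)) ∧
      fm (R.w3 r) 255 (16 * k + 8) =
        T.fi ((awl (wP.getD k []) r) % 2) (cA (awl (wP.getD k []) r)) := by
  unfold ck3r at h
  rw [fc_eq, Bool.and_eq_true] at h
  refine ⟨Nat.blt_eq ▸ h.1, fun k hk => ?_⟩
  have h2 := List.all_eq_true.1 h.2 k (List.mem_range.2 hk)
  rw [fc_eq, fc_eq, fc_eq, Bool.and_eq_true] at h2
  have e : Nat.land (awl (wP.getD k []) r) 1 = (awl (wP.getD k []) r) % 2 := land_mod _ 1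
  rw [e] at h2
  exact ⟨Nat.eq_of_beq_eq_true h2.1, Nat.eq_of_beq_eq_true h2.2⟩

theorem ck1r_spec {T : Tab} {R : RT} {r : Nat} (h : ck1r T R r = true) :
    R.w1 r < 2 ^ 60 ∧ ∀ k < 20,
      fm (R.w1 r) 7 (3 * k) = T.fi 0 (cC (awl (wR.getD k []) r)) := by
  unfold ck1r at h
  rw [fc_eq, Bool.and_eq_true] at h
  refine ⟨Nat.blt_eq ▸ h.1, fun k hk => ?_⟩
  have h2 := List.all_eq_true.1 h.2 k (List.mem_range.2 hk)
  rw [fc_eq] at h2
  exact Nat.eq_of_beq_eq_true h2

/-- The 21 arrangements of a mask. -/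
noncomputable def xs (m : Nat) : List Nat := (List.range 21).map fun u => awl (fU u) m

theorem xs_len (m : Nat) : (xs m).length = 21 := by simp [xs]

theorem xs_get (m u : Nat) (hu : u < 21) : (xs m).getD u 0 = awl (fU u) m := by
  unfold xs
  rw [List.getD_eq_getElem _ _ (by simpa using hu)]
  simp

theorem xs_mem {m x : Nat} (hm : Adm m) (h : x ∈ xs m) : Adm x := by
  obtain ⟨u, _, rfl⟩ := List.mem_map.1 h
  exact adm_awl _ (fU_ok u) hm

/-- The three-root term at a position. -/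
theorem pos3 {T : Tab} {R : RT} (hR : ∀ r < 1024, vio0 r = false → ck3r T R r = true)
    {m : Nat} (hm : Adm m) (y : Nat) (hy : y < 210) :
    fm (vec 160 (fun x => R.w3 (r10 x)) (xs m)) 255 (16 * y) =
      T.rb ((awl (f3 y) m) % 2) + T.fi ((awl (f3 y) m) % 2) (cA (awl (f3 y) m)) ∧
    fm (vec 160 (fun x => R.w3 (r10 x)) (xs m)) 255 (16 * y + 8) =
      T.fi ((awl (f3 y) m) % 2) (cA (awl (f3 y) m)) := by
  have hu : y / 10 < 21 := by omega
  have hk : y % 10 < 10 := by omega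
  have hx := adm_awl _ (fU_ok (y / 10)) hm
  have hw : ∀ x ∈ xs m, R.w3 (r10 x) < 2 ^ 160 := fun x hx' => by
    have ha := xs_mem hm hx'
    rw [r10, land_rt]
    exact (ck3r_spec (hR _ (rt_lt x) (vio0_rt ha))).1
  obtain ⟨h1, h2⟩ := (ck3r_spec (hR _ (rt_lt _) (vio0_rt hx))).2 _ hk
  have hP : w4 (wP.getD (y % 10) []) = true := w4_getD wP_ok _
  have e1 : rt (awl (wP.getD (y % 10) []) (rt (awl (fU (y / 10)) m))) =
      rt (awl (f3 y) m) := by
    rw [f3, awl_append, ← rt_awl' hP]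
  rw [mod2_rt e1, cA_rt e1] at h1 h2
  have g1 := fm_vec 160 8 (fun x => R.w3 (r10 x)) (xs m) (y / 10) (16 * (y % 10)) hw (by omega)
    (by rw [xs_len]; exact hu)
  have g2 := fm_vec 160 8 (fun x => R.w3 (r10 x)) (xs m) (y / 10) (16 * (y % 10) + 8) hw
    (by omega) (by rw [xs_len]; exact hu)
  rw [xs_get m _ hu, r10, land_rt] at g1 g2
  have p1 : 160 * (y / 10) + 16 * (y % 10) = 16 * y := by omega
  have p2 : 160 * (y / 10) + (16 * (y % 10) + 8) = 16 * y + 8 := by omega
  rw [p1] at g1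
  rw [p2] at g2
  exact ⟨g1.trans h1, g2.trans h2⟩

theorem pos1 {T : Tab} {R : RT} (hR : ∀ r < 1024, vio0 r = false → ck1r T R r = true)
    {m : Nat} (hm : Adm m) (y : Nat) (hy : y < 420) :
    fm (vec 60 (fun x => R.w1 (r10 x)) (xs m)) 7 (3 * y) = T.fi 0 (cC (awl (f1 y) m)) := by
  have hu : y / 20 < 21 := by omega
  have hk : y % 20 < 20 := by omega
  have hx := adm_awl _ (fU_ok (y / 20)) hm
  have hw : ∀ x ∈ xs m, R.w1 (r10 x) < 2 ^ 60 := fun x hx' => by
    have ha := xs_mem hm hx'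
    rw [r10, land_rt]
    exact (ck1r_spec (hR _ (rt_lt x) (vio0_rt ha))).1
  have h1 := (ck1r_spec (hR _ (rt_lt _) (vio0_rt hx))).2 _ hk
  have hP : w4 (wR.getD (y % 20) []) = true := w4_getD wR_ok _
  have e1 : rt (awl (wR.getD (y % 20) []) (rt (awl (fU (y / 20)) m))) =
      rt (awl (f1 y) m) := by
    rw [f1, awl_append, ← rt_awl' hP]
  rw [cC_rt e1] at h1
  have g1 := fm_vec 60 3 (fun x => R.w1 (r10 x)) (xs m) (y / 20) (3 * (y % 20)) hw (by omega)
    (by rw [xs_len]; exact hu)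
  rw [xs_get m _ hu, r10, land_rt] at g1
  have p1 : 60 * (y / 20) + 3 * (y % 20) = 3 * y := by omega
  rw [p1] at g1
  exact g1.trans h1

/-! Sums over the pairs. -/

theorem l3_eq : l3.toList = List.zipWith (fun y z => (16 * y, 16 * z + 8)) (e3.map Prod.fst) p3 := by
  decide +kernel

theorem l1_eq : l1.toList = List.zipWith (fun y z => (3 * y, 3 * z)) (e1.map Prod.fst) p1 := by
  decide +kernel

theorem term3 {T : Tab} {R : RT}
    (hR : ∀ r < 1024, vio0 r = false → ck3r T R r = true)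
    {m : Nat} (hm : Adm m) : ∀ (ys zs : List Nat), ckp3 ys zs = true →
    ((((List.zipWith (fun y z => (16 * y, 16 * z + 8)) ys zs).map fun p =>
        e96 (T.QT.get (fm (vec 160 (fun x => R.w3 (r10 x)) (xs m)) 255 p.1))
          (fm (vec 160 (fun x => R.w3 (r10 x)) (xs m)) 255 p.2)).sum : Nat) : ℤ) =
      (ys.map (fun y => T.G3 (awl (f3 y) m))).sum + ys.length * T.OFF
  | [], [], _ => by simp
  | [], _ :: _, h => by simp [ckp3] at h
  | _ :: _, [], h => by simp [ckp3] at h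
  | y :: ys, z :: zs, h => by
    simp only [ckp3, Bool.and_eq_true, Nat.blt_eq] at h
    obtain ⟨h1, h2, h3, h4⟩ := h
    have ih := term3 hR hm ys zs h4
    have hY := adm_awl _ (f3_ok y) hm
    obtain ⟨a1, -⟩ := pos3 hR hm y h2
    obtain ⟨-, a2⟩ := pos3 hR hm z h3
    have e1 : awl [4, 3, 5, 4] (awl (f3 y) m) = awl (f3 z) m := by
      rw [← awl_append]
      exact awl_of_eq7 (wok_append (f3_ok y) rfl) (f3_ok z) h1 hm.lt
    have e2 : cA (awl (f3 z) m) = cB (awl (f3 y) m) := by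
      rw [← e1, cA_blk hY.lt]
    have e3 : (awl (f3 z) m) % 2 = (awl (f3 y) m) % 2 := by
      rw [← e1, mod2_blk hY.lt]
    rw [e2, e3] at a2
    simp only [List.zipWith_cons_cons, List.map_cons, List.sum_cons, Nat.cast_add,
      List.length_cons, ih]
    rw [a1, a2]
    have key : ((e96 (T.QT.get (T.rb (awl (f3 y) m % 2) +
        T.fi (awl (f3 y) m % 2) (cA (awl (f3 y) m))))
        (T.fi (awl (f3 y) m % 2) (cB (awl (f3 y) m))) : Nat) : ℤ) =
        T.G3 (awl (f3 y) m) + T.OFF := by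
      have e4 : (awl (f3 y) m) % 2 % 2 = (awl (f3 y) m) % 2 := by omega
      rw [Tab.G3, Tab.Q3, Tab.qi, e4]
      have : e96 (T.QT.get (T.rb (awl (f3 y) m % 2) +
        T.fi (awl (f3 y) m % 2) (cA (awl (f3 y) m))))
        (T.fi (awl (f3 y) m % 2) (cB (awl (f3 y) m))) =
        T.qe (awl (f3 y) m % 2) (T.fi (awl (f3 y) m % 2) (cA (awl (f3 y) m)))
          (T.fi (awl (f3 y) m % 2) (cB (awl (f3 y) m))) := rfl
      rw [this]
      ring
    rw [key]
    push_cast
    ring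

theorem term1 {T : Tab} {R : RT}
    (hR : ∀ r < 1024, vio0 r = false → ck1r T R r = true) (hrb : T.rb 0 = 0)
    {m : Nat} (hm : Adm m) : ∀ (ys zs : List Nat), ckp1 ys zs = true →
    ((((List.zipWith (fun y z => (3 * y, 3 * z)) ys zs).map fun p =>
        e96 (T.QT.get (fm (vec 60 (fun x => R.w1 (r10 x)) (xs m)) 7 p.1))
          (fm (vec 60 (fun x => R.w1 (r10 x)) (xs m)) 7 p.2)).sum : Nat) : ℤ) =
      (ys.map (fun y => T.G1 (awl (f1 y) m))).sum + ys.length * T.OFF
  | [], [], _ => by simp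
  | [], _ :: _, h => by simp [ckp1] at h
  | _ :: _, [], h => by simp [ckp1] at h
  | y :: ys, z :: zs, h => by
    simp only [ckp1, Bool.and_eq_true, Nat.blt_eq] at h
    obtain ⟨h1, h2, h3, h4⟩ := h
    have ih := term1 hR hrb hm ys zs h4
    have hY := adm_awl _ (f1_ok y) hm
    have a1 := pos1 hR hm y h2
    have a2 := pos1 hR hm z h3
    have e1 : awl wB (awl (f1 y) m) = awl (f1 z) m := by
      rw [← awl_append]
      exact awl_of_eq7 (wok_append (f1_ok y) rfl) (f1_ok z) h1 hm.lt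
    have e2 : cC (awl (f1 z) m) = cD (awl (f1 y) m) := by
      rw [← e1, cC_blk hY.lt]
    rw [e2] at a2
    simp only [List.zipWith_cons_cons, List.map_cons, List.sum_cons, Nat.cast_add,
      List.length_cons, ih]
    rw [a1, a2]
    have key : ((e96 (T.QT.get (T.fi 0 (cC (awl (f1 y) m))))
        (T.fi 0 (cD (awl (f1 y) m))) : Nat) : ℤ) = T.G1 (awl (f1 y) m) + T.OFF := by
      rw [Tab.G1, Tab.Q1, Tab.qi]
      have : e96 (T.QT.get (T.fi 0 (cC (awl (f1 y) m)))) (T.fi 0 (cD (awl (f1 y) m))) =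
        T.qe 0 (T.fi 0 (cC (awl (f1 y) m))) (T.fi 0 (cD (awl (f1 y) m))) := by
        rw [Tab.qe, hrb]
        change _ = Nat.land (Nat.shiftRight (T.QT.get (0 + _)) _) _
        rw [Nat.zero_add]; rfl
      rw [this]
      ring
    rw [key]
    push_cast
    ring

end KV
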