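import Pool.Agent.Helper41.KV.Ev
import Pool.Agent.Helper41.KV.Conv
import Pool.Agent.Helper41.KE.Sound2
import Pool.Agent.Helper13.KC.S5b

set_option autoImplicit false

/-!
The five-root part of the fast evaluation.
-/

namespace KV

open KC

/-- Check of a row: the entries at the bits of `A`. -/
noncomputable def rowCk (g : Nat → Nat) (A fr n : Nat) : Bool :=
  Nat.rec (motive := fun _ => Bool) true
    (fun k ih => Bool.rec (motive := fun _ => Bool) ih
      (Bool.rec (motive := fun _ => Bool) false ih (Nat.beq (f9 fr k) (g k)))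
      (Nat.beq (Nat.land (Nat.shiftRight A k) 1) 1)) n

theorem rowCk_spec (g : Nat → Nat) (A fr : Nat) : ∀ n : Nat, rowCk g A fr n = true →
    ∀ j < n, A.testBit j = true → f9 fr j = g j
  | 0, _, j, hj, _ => absurd hj (by omega)
  | n + 1, h, j, hj, hA => by
    have e : rowCk g A fr (n + 1) = (bif A.testBit n then
        (bif Nat.beq (f9 fr n) (g n) then rowCk g A fr n else false)
        else rowCk g A fr n) := by
      rw [← KE.beq_bit]
      change Bool.rec (motive := fun _ => Bool) (rowCk g A fr n)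
        (Bool.rec (motive := fun _ => Bool) false (rowCk g A fr n) (Nat.beq (f9 fr n) (g n)))
        (Nat.beq (Nat.land (Nat.shiftRight A n) 1) 1) = _
      cases Nat.beq (Nat.land (Nat.shiftRight A n) 1) 1 <;>
        cases Nat.beq (f9 fr n) (g n) <;> rfl
    rw [e] at h
    have h3 : rowCk g A fr n = true := by
      revert h
      cases A.testBit n
      · exact fun h => h
      · cases Nat.beq (f9 fr n) (g n)
        · intro h; simp at h
        · exact fun h => h
    by_cases hjn : j = n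
    · subst hjn
      rw [hA] at h
      cases h2 : Nat.beq (f9 fr j) (g j)
      · rw [h2] at h; simp at h
      · exact Nat.eq_of_beq_eq_true h2
    · exact rowCk_spec g A fr n h3 j (by omega) hA

/-- Link action by a coded word, for the kernel. -/
noncomputable def al5K (w l : Nat) : Nat :=
  Nat.land (Nat.shiftRight (awN 12 w (Nat.shiftLeft l 10)) 10) 1023

theorem al5K_eq {w l : Nat} (hw : w4 (decw 12 w) = true) (hl : l < 1024) :
    al5K w l = al5 (decw 12 w) l := by
  have h1 : ∀ x, Nat.land (Nat.shiftRight x 10) 1023 = lk5 x := by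
    intro x
    have := land_mod (Nat.shiftRight x 10) 10
    rw [show (2 : Nat) ^ 10 - 1 = 1023 by norm_num, shift_div] at this
    rw [shift_div]
    exact this
  unfold al5K
  rw [h1, awN_eq, lk5_awl _ _ hw]
  congr 1
  change lk5 (l <<< 10) = l
  unfold lk5
  rw [Nat.shiftLeft_eq, Nat.mul_div_cancel _ (by norm_num)]
  exact Nat.mod_eq_of_lt (lt_of_lt_of_le hl (by norm_num))

/-- The first ten triples. -/
def q10 : List KE.Q4 :=
  [.mk 0 0 1 2, .mk 1 0 3 4, .mk 2 1 3 5, .mk 3 2 4 5, .mk 4 0 6 7, .mk 5 1 6 8, .mk 6 2 7 8,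
   .mk 7 3 6 9, .mk 8 4 7 9, .mk 9 5 8 9]

/-- Check of a labelled root mask, five roots. -/
noncomputable def ck5r (T : Tab) (R : RT) (r : Nat) : Bool :=
  R.get r fun b fr _ _ => fc (T.ty r) fun t => fc (Nat.shiftRight (T.cw r) 4) fun w =>
    w4 (decw 12 w) && (Nat.beq b (T.rb t) &&
      rowCk (fun l => fc (al5K w l) fun l' => T.fi t l') (KE.lk 10 r q10) fr 1024)

theorem ck5r_spec {T : Tab} {R : RT} {r : Nat} (h : ck5r T R r = true) :
    R.b r = T.rb (T.ty r) ∧ ∀ l < 1024, (KE.lk 10 r q10).testBit l = true →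
      f9 (R.fr r) l = T.fi (T.ty r) (al5 (T.wr r) l) := by
  unfold ck5r at h
  rw [RT.get_eq, fc_eq, fc_eq, Bool.and_eq_true, Bool.and_eq_true] at h
  refine ⟨Nat.eq_of_beq_eq_true h.2.1, fun l hl hA => ?_⟩
  have h2 := rowCk_spec _ _ _ 1024 h.2.2 l hl hA
  rw [fc_eq, al5K_eq h.1 hl] at h2
  exact h2

theorem link5 {x : Nat} (hx : Adm x) : (KE.lk 10 (rt x) q10).testBit (lk5 x) = true := by
  have hL : lk5 x < 32768 := lt_of_lt_of_le (lk5_lt x) (by norm_num)
  exact KE.lk_bit 10 (rt x) (lk5 x) hL (lk5_lt x) q10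
    (fun q hq => KE.good_of_adm KE.St.s5 hx q hq)

theorem link6 {x : Nat} (hx : Adm x) : (KE.lk 10 (rt x) q10).testBit (lk6 x) = true := by
  have := link5 (adm_tau hx 5 (by norm_num))
  rwa [rt_tau5, lk5_tau5] at this

theorem land_rt (x : Nat) : Nat.land x 1023 = rt x := by
  have := land_mod x 10
  rw [show (2 : Nat) ^ 10 - 1 = 1023 by norm_num] at this
  exact this

theorem land_lk5 (x : Nat) : Nat.land (Nat.shiftRight x 10) 1023 = lk5 x := by
  have := land_mod (Nat.shiftRight x 10) 10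
  rw [show (2 : Nat) ^ 10 - 1 = 1023 by norm_num, shift_div] at this
  rw [shift_div]
  exact this

theorem land_lk6 (x : Nat) : Nat.land (Nat.shiftRight x 20) 1023 = lk6 x := by
  have := land_mod (Nat.shiftRight x 20) 10
  rw [show (2 : Nat) ^ 10 - 1 = 1023 by norm_num, shift_div] at this
  rw [shift_div]
  exact this

/-- The five-root term. -/
theorem q5_spec {T : Tab} {R : RT} {x : Nat} (hx : Adm x) (hR : ck5r T R (rt x) = true) :
    ((q5 T.QT (R.b (rt x)) (R.fr (rt x)) x : Nat) : ℤ) = T.G5 x + T.OFF := by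
  obtain ⟨h1, h2⟩ := ck5r_spec hR
  have h3 := h2 _ (lk5_lt x) (link5 hx)
  have h4 := h2 _ (lk6_lt x) (link6 hx)
  unfold q5
  rw [fc_eq, land_lk5, land_lk6, h1, h3, h4, Tab.G5, Tab.Q5, Tab.qi]
  have : e96 (T.QT.get (Nat.add (T.rb (T.ty (rt x)))
      (T.fi (T.ty (rt x)) (al5 (T.wr (rt x)) (lk5 x)))))
      (T.fi (T.ty (rt x)) (al5 (T.wr (rt x)) (lk6 x))) =
      T.qe (T.ty (rt x)) (T.fi (T.ty (rt x)) (al5 (T.wr (rt x)) (lk5 x)))
        (T.fi (T.ty (rt x)) (al5 (T.wr (rt x)) (lk6 x))) := rfl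
  rw [this]
  ring

/-- Sum over the 21 arrangements. -/
theorem sum21 {f : Nat → Nat} {g : Nat → ℤ} {off : ℤ} {m : Nat} (hm : Adm m)
    (hg : ∀ W ∈ gn5, ∀ m, Adm m → g (awl W m) = g m)
    (h : ∀ x, Adm x → ((f x : Nat) : ℤ) = g x + off) :
    (((((List.range 21).map (fun u => awl (fU u) m)).map f).sum : Nat) : ℤ) =
      fam tree5.tr g m + 21 * off := by
  rw [fam5_eq hg hm, List.map_map]
  have key : ∀ l : List Nat, (((l.map (f ∘ fun u => awl (fU u) m)).sum : Nat) : ℤ) =
      (l.map (fun u => g (awl (fU u) m))).sum + l.length * off := by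
    intro l
    induction l with
    | nil => simp
    | cons a l ih =>
      simp only [List.map_cons, List.sum_cons, Nat.cast_add, List.length_cons, ih,
        Function.comp_apply, h _ (adm_awl _ (fU_ok a) hm)]
      push_cast
      ring
  rw [key, List.length_range]
  norm_num

end KV
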