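import Pool.Agent.Helper13.KC.Tr5
import Pool.Agent.Helper13.KC.Tr3
import Pool.Agent.Helper13.KC.Tr1
import Pool.Agent.Helper13.KC.TrD
import Pool.Agent.Helper13.KC.S1

set_option autoImplicit false
set_option maxRecDepth 100000

/-!
The arrangements by increasing 5-sets, and the words of the transversals in terms of them.
-/

namespace KV

open KC

/-- The 21 words: increasing 5-set, increasing complement. -/
def wU : List (List Nat) :=
  [[], [4], [5, 4], [3, 4], [3, 5, 4], [4, 3, 5, 4], [2, 3, 4], [2, 3, 5, 4], [2, 4, 3, 5, 4],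
   [3, 2, 4, 3, 5, 4], [1, 2, 3, 4], [1, 2, 3, 5, 4], [1, 2, 4, 3, 5, 4],
   [1, 3, 2, 4, 3, 5, 4], [2, 1, 3, 2, 4, 3, 5, 4], [0, 1, 2, 3, 4], [0, 1, 2, 3, 5, 4],
   [0, 1, 2, 4, 3, 5, 4], [0, 1, 3, 2, 4, 3, 5, 4], [0, 2, 1, 3, 2, 4, 3, 5, 4],
   [1, 0, 2, 1, 3, 2, 4, 3, 5, 4]]

/-- The 10 words for the root triples inside a 5-set. -/
def wP : List (List Nat) :=
  [[], [2], [1, 2], [0, 1, 2], [3, 2], [1, 3, 2], [0, 1, 3, 2], [2, 1, 3, 2], [0, 2, 1, 3, 2],
   [1, 0, 2, 1, 3, 2]]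

/-- The 20 words for a root and a triple inside a 5-set. -/
def wR : List (List Nat) :=
  [[0, 1, 2, 3], [0, 1, 2, 3, 0], [0, 1, 2, 3, 1, 0], [0, 1, 2, 3, 2, 1, 0], [1, 2, 3],
   [1, 2, 3, 0], [1, 2, 3, 1, 0], [1, 2, 3, 2, 1, 0], [2, 3], [2, 3, 0], [2, 3, 1, 0],
   [2, 3, 2, 1, 0], [3], [3, 0], [3, 1, 0], [3, 2, 1, 0], [], [0], [1, 0], [2, 1, 0]]

/-- The 5 words for one root in a 5-set. -/
def wV : List (List Nat) :=
  [[], [0], [1, 0], [2, 1, 0], [3, 2, 1, 0]]

/-- Certificate for five roots. -/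
def e5 : List (Nat × List Nat) :=
  [(0, []), (1, []), (5, []), (8, [2]), (9, [2, 4, 3]), (3, []), (2, []), (4, []), (6, []),
   (7, []), (10, []), (12, [4]), (13, [4, 2]), (14, [4, 2]), (20, [2]), (11, []), (15, []),
   (17, [4]), (18, [4, 2]), (19, [4, 2]), (16, [])]

/-- Certificate for three roots. -/
def e3 : List (Nat × List Nat) :=
  [(0, []), (1, []), (60, []), (61, []), (64, []), (65, []), (17, []), (7, []), (62, []),
   (10, []), (11, []), (14, []), (34, []), (15, []), (35, []), (2, []), (12, []), (100, []),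
   (101, []), (102, []), (104, []), (105, []), (9, []), (103, []), (106, [2]), (156, [2]),
   (19, []), (108, [2]), (158, [2]), (39, []), (109, [2]), (159, [2]), (69, []), (153, []),
   (4, []), (30, []), (31, []), (37, []), (67, []), (107, []), (5, []), (32, []), (3, []),
   (13, []), (16, [2]), (154, []), (18, [2]), (155, []), (66, []), (150, []), (151, []),
   (8, [2]), (152, []), (63, []), (6, []), (33, []), (36, [2]), (38, [2]), (157, []), (68, []),
   (24, []), (44, []), (74, []), (27, [1]), (75, [1]), (77, [2, 1]), (79, [1, 0]),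
   (119, [1, 0]), (169, [1, 0]), (87, [1]), (57, [1]), (127, [2, 1]), (88, [1, 0]),
   (58, [1, 0]), (177, [2, 1, 0]), (89, [0, 2, 1, 0]), (179, [0, 1, 0]), (178, [0, 2, 1, 0]),
   (128, [0, 2, 1, 0]), (59, [0, 2, 1, 0]), (129, [0, 1, 0]), (199, [0, 1, 0]),
   (99, [0, 3, 2, 1, 0]), (149, [0, 2, 1, 0]), (25, []), (45, []), (114, []), (115, [1]),
   (117, [1]), (47, [2, 1]), (29, [1]), (116, [1]), (118, [2, 1]), (168, [2, 1]), (49, [1]),
   (166, [1]), (26, []), (46, []), (164, []), (28, [2, 1]), (165, [1]), (167, [2, 1]),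
   (78, [2, 1]), (48, [2, 1]), (76, [1])]

/-- Partners for three roots. -/
def p3 : List Nat :=
  [50, 80, 21, 41, 51, 122, 141, 140, 112, 40, 70, 91, 81, 131, 121, 120, 110, 22, 42, 72, 52,
   82, 200, 163, 173, 123, 201, 183, 133, 202, 193, 143, 203, 113, 90, 20, 71, 142, 132, 92,
   130, 111, 170, 160, 181, 53, 191, 83, 172, 23, 43, 190, 73, 162, 180, 161, 171, 192, 93,
   182, 94, 84, 54, 144, 125, 135, 206, 196, 146, 137, 147, 97, 187, 197, 98, 208, 148, 138,
   188, 207, 198, 139, 209, 189, 134, 124, 55, 85, 95, 145, 204, 176, 186, 136, 205, 126, 184,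
   174, 56, 194, 86, 96, 185, 195, 175]

/-- Certificate for one root. -/
def e1 : List (Nat × List Nat) :=
  [(16, []), (17, []), (0, []), (1, []), (2, []), (3, []), (12, []), (13, []), (15, []),
   (11, []), (7, []), (18, []), (14, []), (4, []), (5, []), (6, []), (24, []), (25, []),
   (26, []), (8, []), (9, []), (19, []), (10, []), (32, []), (33, []), (34, []), (35, []),
   (31, []), (127, []), (27, []), (106, []), (71, []), (67, []), (65, [1, 0]), (63, [0, 1]),
   (203, [1]), (23, []), (28, []), (29, []), (30, []), (52, []), (53, []), (54, []), (44, [1]),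
   (45, [1]), (85, [2, 1]), (55, [1]), (47, []), (87, []), (91, []), (89, [1, 0]), (83, [1]),
   (90, [0, 1, 0]), (82, [1, 0]), (86, [1, 0]), (48, []), (49, []), (50, []), (46, [1]),
   (51, [1, 0]), (42, [1, 0]), (43, [1, 0]), (40, [0, 1]), (145, [1]), (147, [0]),
   (143, [0, 1]), (146, [0, 1, 0]), (142, [0, 1, 0]), (222, [0, 1, 0]), (223, [0, 1])]

/-- Partners for one root. -/
def p1 : List Nat :=
  [184, 180, 109, 105, 165, 185, 164, 160, 281, 261, 181, 260, 240, 108, 101, 161, 88, 81, 141,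
   104, 100, 280, 241, 144, 140, 220, 282, 262, 102, 182, 123, 242, 162, 41, 166, 110, 186, 84,
   80, 221, 124, 120, 200, 68, 61, 21, 283, 183, 163, 243, 20, 167, 202, 126, 122, 64, 60, 201,
   121, 263, 125, 187, 69, 22, 103, 107, 62, 66, 70, 111]

/-- Certificate for the degree equations. -/
def eD : List (Nat × List Nat) :=
  [(0, []), (1, []), (5, []), (6, []), (25, []), (26, []), (27, []), (9, []), (19, []),
   (48, []), (34, []), (28, []), (43, []), (40, [1, 0]), (41, [1, 0]), (88, [1, 2]),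
   (85, [0, 1, 2, 0]), (87, [1, 2, 0]), (96, [1, 3, 2, 0]), (77, [3, 2, 1, 0]),
   (79, [3, 1, 0]), (75, [0, 3, 2, 1]), (82, [3]), (86, [0, 3, 1]), (101, [1, 0, 3, 2, 1]),
   (89, [1, 2, 1, 0]), (29, [0, 1, 2, 1, 0]), (2, []), (7, []), (50, []), (51, []), (52, []),
   (53, []), (58, [3]), (67, [3]), (65, [3, 0]), (66, [3, 0]), (102, [1, 2]), (100, [0, 1, 2]),
   (91, [0, 1, 3, 2]), (76, [0, 1, 0, 3, 2, 1]), (78, [0, 1, 3, 2, 1]),
   (81, [0, 1, 0, 3, 2, 1]), (103, [1, 2, 0]), (69, [0, 1, 3, 2, 0]), (104, [1, 2, 0]),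
   (72, [3]), (60, [3]), (61, [3]), (62, [3]), (70, [1, 3, 2]), (71, [1, 3, 2]), (73, [3, 2]),
   (64, [1, 3, 2]), (74, [3, 2]), (59, [3, 1]), (14, [1, 3, 2, 1]), (44, [1, 2]), (54, []),
   (63, [3]), (68, [3]), (55, []), (56, []), (57, []), (15, []), (16, []), (17, []), (4, []),
   (18, []), (47, []), (45, [0]), (46, [0]), (92, [1, 2]), (90, [0, 1, 2]), (93, [1, 2, 0]),
   (97, [1, 2]), (95, [0, 1, 2]), (98, [1, 2, 0]), (49, [0, 1, 2, 0]), (94, [1, 2, 0]),
   (84, [3, 2, 1, 0]), (83, [3, 2, 1, 0]), (80, [1, 0, 3, 2, 1, 0]), (24, [0, 3, 2, 1, 0]),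
   (39, [0, 3, 2, 1, 0]), (99, [1, 2, 0]), (33, []), (23, []), (38, []), (10, []), (11, []),
   (12, []), (20, []), (21, []), (22, []), (3, []), (8, []), (42, []), (13, []), (30, []),
   (31, []), (32, []), (35, []), (36, []), (37, [])]

end KV
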